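import Mathlib

/-!
# Ideals in local rings of dimension one have a bounded number of generators
-/

namespace Pool.Agent.H16.BG

universe u v

open IsLocalRing

section

variable {A : Type*} [CommRing A] [IsLocalRing A] {M : Type*} [AddCommGroup M] [Module A M]

theorem spanFinrank_le_length (L : Submodule A M) (hfg : L.FG) (y : A) (hy : y ∈ maximalIdeal A) :
    (L.spanFinrank : ℕ∞) ≤ Module.length A (L ⧸ (Ideal.span {y} • (⊤ : Submodule A L))) := by
  have hle : Ideal.span {y} • (⊤ : Submodule A L) ≤ maximalIdeal A • (⊤ : Submodule A L) :=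
    Submodule.smul_mono_left ((Ideal.span_singleton_le_iff_mem _).2 hy)
  have h1 : Module.length A (L ⧸ (maximalIdeal A • (⊤ : Submodule A L))) ≤
      Module.length A (L ⧸ (Ideal.span {y} • (⊤ : Submodule A L))) :=
    Module.length_le_of_surjective (Submodule.factor hle) (Submodule.factor_surjective hle)
  refine le_trans ?_ h1
  have : Module.Finite A L := Module.Finite.iff_fg.2 hfg
  rw [IsLocalRing.spanFinrank_eq_finrank_quotient L hfg]
  have h2 : Module.length A (L ⧸ (maximalIdeal A • (⊤ : Submodule A L))) =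
      Module.length (A ⧸ maximalIdeal A) (L ⧸ (maximalIdeal A • (⊤ : Submodule A L))) :=
    Module.length_eq_of_surjective (S := A) (R := A ⧸ maximalIdeal A)
      (M := L ⧸ (maximalIdeal A • (⊤ : Submodule A L))) (Ideal.Quotient.mk_surjective)
  rw [h2]
  let _ : Field (A ⧸ maximalIdeal A) := Ideal.Quotient.field _
  have h3 := Module.length_eq_finrank (A ⧸ maximalIdeal A) (L ⧸ (maximalIdeal A • (⊤ : Submodule A L)))
  exact h3.ge

end

section domain

variable {D : Type*} [CommRing D] [IsDomain D]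

omit [IsDomain D] in
theorem mem_span_mul {J : Ideal D} {y z : D} : z ∈ Ideal.span {y} * J ↔ ∃ j ∈ J, y * j = z :=
  Ideal.mem_span_singleton_mul

theorem length_quotient_smul (J : Ideal D) (y : D) (hy : y ≠ 0)
    (hJ : Module.length D (D ⧸ J) ≠ ⊤) :
    Module.length D (J ⧸ (Ideal.span {y} • (⊤ : Submodule D J))) =
      Module.length D (D ⧸ Ideal.span {y}) := by
  set P : Ideal D := Ideal.span {y} * J with hP
  have hPJ : P ≤ J := by
    intro z hz
    obtain ⟨j, hj, rfl⟩ := mem_span_mul.1 hz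
    exact J.mul_mem_left _ hj
  have hPy : P ≤ Ideal.span {y} := by
    intro z hz
    obtain ⟨j, hj, rfl⟩ := mem_span_mul.1 hz
    exact Ideal.mul_mem_right _ _ (Ideal.mem_span_singleton_self y)
  -- first exact sequence
  have hf : Ideal.span {y} • (⊤ : Submodule D J) ≤ Submodule.comap J.subtype P := by
    rw [Submodule.smul_le]
    rintro r hr ⟨j, hj⟩ -
    show r * j ∈ P
    exact Ideal.mul_mem_mul hr hj
  let f : (J ⧸ (Ideal.span {y} • (⊤ : Submodule D J))) →ₗ[D] (D ⧸ P) := Submodule.mapQ _ _ J.subtype hf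
  have hfinj : Function.Injective f := by
    rw [← LinearMap.ker_eq_bot, LinearMap.ker_eq_bot']
    intro z hz
    obtain ⟨⟨j, hj⟩, rfl⟩ := Submodule.mkQ_surjective _ z
    have h1 : j ∈ P := by
      have : (Submodule.Quotient.mk j : D ⧸ P) = 0 := hz
      rwa [Submodule.Quotient.mk_eq_zero] at this
    obtain ⟨j', hj', rfl⟩ := mem_span_mul.1 h1
    rw [Submodule.mkQ_apply, Submodule.Quotient.mk_eq_zero]
    have h2 : (⟨y * j', hj⟩ : J) = y • (⟨j', hj'⟩ : J) := rfl
    rw [h2]
    exact Submodule.smul_mem_smul (Ideal.mem_span_singleton_self y) trivial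
  have hex1 : Function.Exact f (Submodule.factor hPJ) := by
    intro z
    obtain ⟨d, rfl⟩ := Submodule.mkQ_surjective _ z
    constructor
    · intro h
      have h1 : d ∈ J := by
        have : (Submodule.Quotient.mk d : D ⧸ J) = 0 := h
        rwa [Submodule.Quotient.mk_eq_zero] at this
      exact ⟨Submodule.Quotient.mk ⟨d, h1⟩, rfl⟩
    · rintro ⟨w, hw⟩
      obtain ⟨⟨j, hj⟩, rfl⟩ := Submodule.mkQ_surjective _ w
      rw [← hw]
      show (Submodule.Quotient.mk j : D ⧸ J) = 0
      rwa [Submodule.Quotient.mk_eq_zero]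
  have e1 := Module.length_eq_add_of_exact f (Submodule.factor hPJ) hfinj
    (Submodule.factor_surjective hPJ) hex1
  -- second exact sequence
  have hf2 : J ≤ Submodule.comap (LinearMap.mulLeft D y) P := by
    intro j hj
    exact Ideal.mul_mem_mul (Ideal.mem_span_singleton_self y) hj
  let f2 : (D ⧸ J) →ₗ[D] (D ⧸ P) := Submodule.mapQ _ _ (LinearMap.mulLeft D y) hf2
  have hf2inj : Function.Injective f2 := by
    rw [← LinearMap.ker_eq_bot, LinearMap.ker_eq_bot']
    intro z hz
    obtain ⟨d, rfl⟩ := Submodule.mkQ_surjective _ z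
    have h1 : y * d ∈ P := by
      have : (Submodule.Quotient.mk (y * d) : D ⧸ P) = 0 := hz
      rwa [Submodule.Quotient.mk_eq_zero] at this
    obtain ⟨j', hj', h2⟩ := mem_span_mul.1 h1
    rw [mul_left_cancel₀ hy h2] at hj'
    rw [Submodule.mkQ_apply, Submodule.Quotient.mk_eq_zero]
    exact hj'
  have hex2 : Function.Exact f2 (Submodule.factor hPy) := by
    intro z
    obtain ⟨d, rfl⟩ := Submodule.mkQ_surjective _ z
    constructor
    · intro h
      have h1 : d ∈ Ideal.span {y} := by
        have : (Submodule.Quotient.mk d : D ⧸ Ideal.span {y}) = 0 := h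
        rwa [Submodule.Quotient.mk_eq_zero] at this
      obtain ⟨w, rfl⟩ := Ideal.mem_span_singleton'.1 h1
      refine ⟨Submodule.Quotient.mk w, ?_⟩
      show (Submodule.Quotient.mk (y * w) : D ⧸ P) = Submodule.Quotient.mk (w * y)
      rw [mul_comm]
    · rintro ⟨w, hw⟩
      obtain ⟨d', rfl⟩ := Submodule.mkQ_surjective _ w
      rw [← hw]
      show (Submodule.Quotient.mk (y * d') : D ⧸ Ideal.span {y}) = 0
      rw [Submodule.Quotient.mk_eq_zero]
      exact Ideal.mul_mem_right _ _ (Ideal.mem_span_singleton_self y)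
  have e2 := Module.length_eq_add_of_exact f2 (Submodule.factor hPy) hf2inj
    (Submodule.factor_surjective hPy) hex2
  rw [e1, add_comm] at e2
  exact ENat.add_right_injective_of_ne_top hJ e2

end domain

/-- every submodule is generated by `N` elements -/
def Bdd (A : Type u) [CommRing A] (M : Type v) [AddCommGroup M] [Module A M] : Prop :=
  ∃ N : ℕ, ∀ L : Submodule A M, ∃ b : Fin N → M, Submodule.span A (Set.range b) = L

theorem exists_fin_of_spanFinrank_le {A : Type*} [CommRing A] {M : Type*} [AddCommGroup M] [Module A M]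
    (L : Submodule A M) (hfg : L.FG) (N : ℕ) (h : L.spanFinrank ≤ N) :
    ∃ b : Fin N → M, Submodule.span A (Set.range b) = L := by
  classical
  obtain ⟨s, hs, hspan⟩ := hfg.exists_span_finset_card_eq_spanFinrank
  let em : Fin s.card ≃ s := s.equivFin.symm
  refine ⟨fun i => if h : (i : ℕ) < s.card then (em ⟨i, h⟩ : M) else 0, ?_⟩
  rw [← hspan]
  apply le_antisymm
  · rw [Submodule.span_le]
    rintro _ ⟨i, rfl⟩
    show (if h : (i : ℕ) < s.card then (em ⟨i, h⟩ : M) else 0) ∈ Submodule.span A (s : Set M)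
    split_ifs with hi
    · exact Submodule.subset_span (em ⟨i, hi⟩).2
    · exact Submodule.zero_mem _
  · rw [Submodule.span_le]
    intro z hz
    obtain ⟨i, hi⟩ := em.surjective ⟨z, hz⟩
    refine Submodule.subset_span ⟨⟨(i : ℕ), by omega⟩, ?_⟩
    show (if h : (i : ℕ) < s.card then (em ⟨i, h⟩ : M) else 0) = z
    rw [dif_pos i.2]
    exact congrArg Subtype.val hi

theorem bdd_domain (D : Type*) [CommRing D] [IsDomain D] [IsLocalRing D] [IsNoetherianRing D]
    [Ring.KrullDimLE 1 D] (y : D) (hy : y ∈ maximalIdeal D) (hy0 : y ≠ 0) :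
    ∃ N : ℕ, (N : ℕ∞) = Module.length D (D ⧸ Ideal.span {y}) ∧
      ∀ L : Ideal D, ∃ b : Fin N → D, Ideal.span (Set.range b) = L := by
  have hfin : Module.length D (D ⧸ Ideal.span {y}) ≠ ⊤ :=
    Module.length_ne_top_iff.2 (isFiniteLength_quotient_span_singleton D
      (mem_nonZeroDivisors_of_ne_zero hy0))
  obtain ⟨N, hN⟩ := ENat.ne_top_iff_exists.1 hfin
  refine ⟨N, hN, fun L => ?_⟩
  by_cases hL : L = ⊥
  · exact ⟨0, by rw [hL]; simp⟩
  · obtain ⟨z, hz, hz0⟩ := Submodule.exists_mem_ne_zero_of_ne_bot hL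
    have hfinL : Module.length D (D ⧸ L) ≠ ⊤ := by
      have h1 : Module.length D (D ⧸ Ideal.span {z}) ≠ ⊤ :=
        Module.length_ne_top_iff.2 (isFiniteLength_quotient_span_singleton D
          (mem_nonZeroDivisors_of_ne_zero hz0))
      have hle : Ideal.span {z} ≤ L := (Ideal.span_singleton_le_iff_mem _).2 hz
      exact ne_top_of_le_ne_top h1
        (Module.length_le_of_surjective (Submodule.factor hle) (Submodule.factor_surjective hle))
    apply exists_fin_of_spanFinrank_le L (IsNoetherian.noetherian L)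
    have h2 := spanFinrank_le_length L (IsNoetherian.noetherian L) y hy
    rw [length_quotient_smul L y hy0 hfinL, ← hN] at h2
    exact_mod_cast h2

theorem Bdd.exact {A : Type u} [CommRing A] {M₁ M₂ M₃ : Type v} [AddCommGroup M₁] [Module A M₁]
    [AddCommGroup M₂] [Module A M₂] [AddCommGroup M₃] [Module A M₃] (f : M₁ →ₗ[A] M₂) (g : M₂ →ₗ[A] M₃)
    (hex : Function.Exact f g) (h1 : Bdd A M₁) (h3 : Bdd A M₃) : Bdd A M₂ := by
  obtain ⟨N₁, h1⟩ := h1
  obtain ⟨N₃, h3⟩ := h3
  refine ⟨N₁ + N₃, fun L => ?_⟩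
  obtain ⟨b₁, hb₁⟩ := h1 (L.comap f)
  obtain ⟨b₃, hb₃⟩ := h3 (L.map g)
  have hlift : ∀ j, ∃ z ∈ L, g z = b₃ j := by
    intro j
    have : b₃ j ∈ L.map g := by rw [← hb₃]; exact Submodule.subset_span ⟨j, rfl⟩
    exact this
  choose z hz hgz using hlift
  refine ⟨Fin.append (fun i => f (b₁ i)) z, ?_⟩
  have hr : Set.range (Fin.append (fun i => f (b₁ i)) z) = Set.range (fun i => f (b₁ i)) ∪ Set.range z := by
    ext w
    constructor
    · rintro ⟨i, rfl⟩
      induction i using Fin.addCases with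
      | left i => left; exact ⟨i, by rw [Fin.append_left]⟩
      | right i => right; exact ⟨i, by rw [Fin.append_right]⟩
    · rintro (⟨i, rfl⟩ | ⟨i, rfl⟩)
      · exact ⟨Fin.castAdd _ i, by rw [Fin.append_left]⟩
      · exact ⟨Fin.natAdd _ i, by rw [Fin.append_right]⟩
  rw [hr, Submodule.span_union]
  apply le_antisymm
  · refine sup_le ?_ ?_
    · rw [Submodule.span_le]
      rintro _ ⟨i, rfl⟩
      have : b₁ i ∈ L.comap f := by rw [← hb₁]; exact Submodule.subset_span ⟨i, rfl⟩
      exact this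
    · rw [Submodule.span_le]
      rintro _ ⟨i, rfl⟩
      exact hz i
  · intro w hw
    have h4 : g w ∈ Submodule.span A (Set.range b₃) := by
      rw [hb₃]
      exact Submodule.mem_map_of_mem hw
    obtain ⟨c, hc⟩ := (Submodule.mem_span_range_iff_exists_fun A).1 h4
    have h5 : g (w - ∑ i, c i • z i) = 0 := by
      rw [map_sub, map_sum, ← hc, sub_eq_zero]
      exact Finset.sum_congr rfl fun i _ => by rw [map_smul, hgz]
    obtain ⟨u, hu⟩ := (hex _).1 h5
    have h6 : u ∈ L.comap f := by
      show f u ∈ L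
      rw [hu]
      exact L.sub_mem hw (L.sum_mem fun i _ => L.smul_mem _ (hz i))
    rw [← hb₁] at h6
    have h7 : f u ∈ Submodule.span A (Set.range fun i => f (b₁ i)) := by
      have h8 := Submodule.mem_map_of_mem (f := f) h6
      rw [Submodule.map_span, ← Set.range_comp] at h8
      exact h8
    have h9 : w = f u + ∑ i, c i • z i := by
      rw [hu]
      abel
    rw [h9]
    exact Submodule.add_mem_sup h7 (Submodule.sum_mem _ fun i _ =>
      Submodule.smul_mem _ _ (Submodule.subset_span ⟨i, rfl⟩))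

theorem Bdd.equiv {A : Type u} [CommRing A] {M₁ : Type v} {M₂ : Type*} [AddCommGroup M₁] [Module A M₁]
    [AddCommGroup M₂] [Module A M₂] (f : M₁ ≃ₗ[A] M₂) (h : Bdd A M₁) : Bdd A M₂ := by
  obtain ⟨N, h⟩ := h
  refine ⟨N, fun L => ?_⟩
  obtain ⟨b, hb⟩ := h (L.comap f.toLinearMap)
  refine ⟨fun i => f (b i), ?_⟩
  have h1 : (Submodule.span A (Set.range b)).map f.toLinearMap = L := by
    rw [hb]
    exact Submodule.map_comap_eq_of_surjective f.surjective _
  rw [← h1, Submodule.map_span, ← Set.range_comp]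
  rfl

theorem bdd_quotient_prime (A : Type u) [CommRing A] [IsLocalRing A] [IsNoetherianRing A]
    [Ring.KrullDimLE 1 A] (p : Ideal A) [hp : p.IsPrime] : Bdd A (A ⧸ p) := by
  have : IsLocalRing (A ⧸ p) := IsLocalRing.of_surjective' (Ideal.Quotient.mk _) Ideal.Quotient.mk_surjective
  have hdim : Ring.KrullDimLE 1 (A ⧸ p) := by
    rw [Ring.krullDimLE_iff]
    exact (ringKrullDim_quotient_le p).trans (Ring.krullDimLE_iff.1 inferInstance)
  have hD : ∃ N : ℕ, ∀ L : Ideal (A ⧸ p), ∃ b : Fin N → A ⧸ p, Ideal.span (Set.range b) = L := by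
    by_cases hF : IsField (A ⧸ p)
    · refine ⟨1, fun L => ?_⟩
      let _ := hF.toField
      rcases Ideal.eq_bot_or_top L with h | h
      · refine ⟨fun _ => 0, ?_⟩
        rw [h]
        simp
      · refine ⟨fun _ => 1, ?_⟩
        rw [h, Ideal.eq_top_iff_one]
        exact Ideal.subset_span ⟨0, rfl⟩
    · obtain ⟨y, hy, hy0⟩ : ∃ y ∈ maximalIdeal (A ⧸ p), y ≠ 0 := by
        by_contra hcon
        push Not at hcon
        apply hF
        rw [IsLocalRing.isField_iff_maximalIdeal_eq, eq_bot_iff]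
        intro z hz
        rw [Submodule.mem_bot]
        exact hcon z hz
      obtain ⟨N, -, h⟩ := bdd_domain (A ⧸ p) y hy hy0
      exact ⟨N, h⟩
  obtain ⟨N, h⟩ := hD
  refine ⟨N, fun L => ?_⟩
  -- an `A`-submodule of `A ⧸ p` is an ideal
  let L' : Ideal (A ⧸ p) :=
    { carrier := L
      add_mem' := fun ha hb => L.add_mem ha hb
      zero_mem' := L.zero_mem
      smul_mem' := by
        intro c z hz
        obtain ⟨c, rfl⟩ := Ideal.Quotient.mk_surjective c
        exact L.smul_mem c hz }
  obtain ⟨b, hb⟩ := h L'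
  refine ⟨b, ?_⟩
  apply le_antisymm
  · rw [Submodule.span_le]
    rintro _ ⟨i, rfl⟩
    have : b i ∈ L' := by rw [← hb]; exact Ideal.subset_span ⟨i, rfl⟩
    exact this
  · intro z hz
    have h1 : z ∈ Ideal.span (Set.range b) := by rw [hb]; exact hz
    obtain ⟨c, rfl⟩ := (Submodule.mem_span_range_iff_exists_fun (A ⧸ p)).1 h1
    refine Submodule.sum_mem _ fun i _ => ?_
    obtain ⟨c', hc'⟩ := Ideal.Quotient.mk_surjective (c i)
    rw [← hc']
    exact Submodule.smul_mem (Submodule.span A (Set.range b)) c' (Submodule.subset_span ⟨i, rfl⟩)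

theorem bdd_finite (A : Type u) [CommRing A] [IsLocalRing A] [IsNoetherianRing A]
    [Ring.KrullDimLE 1 A] (M : Type u) [AddCommGroup M] [Module A M] (hM : Module.Finite A M) :
    Bdd A M := by
  induction hM using IsNoetherianRing.induction_on_isQuotientEquivQuotientPrime A with
  | subsingleton N =>
    refine ⟨0, fun L => ⟨Fin.elim0, ?_⟩⟩
    exact Subsingleton.elim _ _
  | quotient N p f =>
    exact (bdd_quotient_prime A p.1).equiv f.symm
  | exact N₁ N₂ N₃ f g hf _ hfg h₁ h₃ => exact Bdd.exact f g hfg h₁ h₃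

/-- Ideals in Noetherian local rings of dimension at most one have a bounded number of generators. -/
theorem bdd_ideals (A : Type u) [CommRing A] [IsLocalRing A] [IsNoetherianRing A]
    [Ring.KrullDimLE 1 A] : ∃ N : ℕ, ∀ J : Ideal A, ∃ b : Fin N → A, Ideal.span (Set.range b) = J :=
  bdd_finite A A inferInstance

end Pool.Agent.H16.BG
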