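import Pool.Agent.H16.CuspRing

/-!
# A module over `k + X ^ (e + 1) k⟦X⟧` whose `e`-th tensor power is torsionfree
-/

open PowerSeries

namespace Pool.Agent.H16.Cusp

universe u

section general

variable {R : Type*} [CommRing R] {M : Type*} [AddCommGroup M] [Module R M]
  {ι : Type*} [Fintype ι] [DecidableEq ι]

theorem tprod_mem_of_gen {A : Type*} (w : A → M) (hw : Submodule.span R (Set.range w) = ⊤)
    (S : Submodule R (PiTensorProduct R (fun _ : ι => M)))
    (hS : ∀ a : ι → A, PiTensorProduct.tprod R (fun j => w (a j)) ∈ S) (m : ι → M) :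
    PiTensorProduct.tprod R m ∈ S := by
  have key : ∀ (s : Finset ι) (m : ι → M), (∀ j, j ∉ s → ∃ a, m j = w a) →
      PiTensorProduct.tprod R m ∈ S := by
    intro s
    induction s using Finset.induction_on with
    | empty =>
      intro m hm
      choose a ha using fun j => hm j (Finset.notMem_empty j)
      have : m = fun j => w (a j) := funext ha
      rw [this]
      exact hS a
    | insert i s hi ih =>
      intro m hm
      have hmi : m i ∈ Submodule.span R (Set.range w) := by rw [hw]; trivial
      have h2 : ∀ x ∈ Submodule.span R (Set.range w),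
          PiTensorProduct.tprod R (Function.update m i x) ∈ S := by
        intro x hx
        induction hx using Submodule.span_induction with
        | mem x hx =>
          obtain ⟨a, rfl⟩ := hx
          apply ih
          intro j hj
          by_cases hji : j = i
          · subst hji
            exact ⟨a, by simp⟩
          · obtain ⟨b, hb⟩ := hm j (by simp [hji, hj])
            exact ⟨b, by rw [Function.update_of_ne hji, hb]⟩
        | zero =>
          rw [MultilinearMap.map_update_zero]
          exact S.zero_mem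
        | add x y _ _ hx hy =>
          rw [MultilinearMap.map_update_add]
          exact S.add_mem hx hy
        | smul r x _ hx =>
          rw [MultilinearMap.map_update_smul]
          exact S.smul_mem r hx
      have := h2 (m i) hmi
      rwa [Function.update_eq_self] at this
  exact key Finset.univ m (fun j hj => absurd (Finset.mem_univ j) hj)

theorem span_tprod_gen {A : Type*} (w : A → M) (hw : Submodule.span R (Set.range w) = ⊤) :
    Submodule.span R (Set.range fun a : ι → A => PiTensorProduct.tprod R (fun j => w (a j))) = ⊤ := by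
  rw [eq_top_iff, ← PiTensorProduct.span_tprod_eq_top, Submodule.span_le]
  rintro _ ⟨m, rfl⟩
  exact tprod_mem_of_gen w hw _ (fun a => Submodule.subset_span (Set.mem_range_self a)) m

end general

variable (k : Type u) [Field k] (e : ℕ)

/-- The generators of the module: `w 0 = (X, X ^ 2, ..., X ^ e)` and `w (i + 1)` is the `i`-th
standard basis vector of `k⟦X⟧ ^ e`. -/
noncomputable def gen (a : Fin (e + 1)) : Fin e → k⟦X⟧ :=
  Fin.cases (motive := fun _ => Fin e → k⟦X⟧) (fun i => X ^ ((i : ℕ) + 1)) (fun l => Pi.single l 1) a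

/-- The submodule of `k⟦X⟧ ^ e` over `k + X ^ (e + 1) k⟦X⟧` generated by the standard basis vectors
and the vector `(X, X ^ 2, ..., X ^ e)`. -/
noncomputable def mod : Submodule (cusp k (e + 1)) (Fin e → k⟦X⟧) :=
  Submodule.span _ (Set.range (gen k e))

variable {k e}

/-- generators as elements of the module -/
noncomputable def g (a : Fin (e + 1)) : mod k e :=
  ⟨gen k e a, Submodule.subset_span (Set.mem_range_self a)⟩

theorem span_g : Submodule.span (cusp k (e + 1)) (Set.range (g : Fin (e + 1) → mod k e)) = ⊤ := by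
  have : Set.range (g : Fin (e + 1) → mod k e) = (Submodule.subtype _) ⁻¹' (Set.range (gen k e)) := by
    ext x
    constructor
    · rintro ⟨a, rfl⟩
      exact ⟨a, rfl⟩
    · rintro ⟨a, ha⟩
      exact ⟨a, Subtype.ext ha⟩
  rw [this]
  exact Submodule.span_span_coe_preimage

/-- coordinate projections of the module -/
noncomputable def coord (i : Fin e) : mod k e →ₗ[cusp k (e + 1)] k⟦X⟧ :=
  (LinearMap.proj i).comp (Submodule.subtype _)

theorem coord_apply (i : Fin e) (m : mod k e) : coord i m = (m : Fin e → k⟦X⟧) i := rfl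

/-- For `v ∈ k⟦X⟧`, `X ^ (e + 1) v` times an element of the module is a combination of the standard basis
vectors with coefficients in `X ^ (e + 1) k⟦X⟧`. -/
theorem mk0_smul (v : k⟦X⟧) (m : mod k e) :
    mk0 (e + 1) v • m = ∑ i : Fin e, mk0 (e + 1) (v * coord i m) • (g i.succ : mod k e) := by
  apply Subtype.ext
  funext j
  have h1 : ∀ i : Fin e, ((g i.succ : mod k e) : Fin e → k⟦X⟧) = Pi.single i 1 := fun i => rfl
  rw [Submodule.coe_smul, Pi.smul_apply, Submodule.coe_sum, Finset.sum_apply]
  simp only [Submodule.coe_smul, Pi.smul_apply, h1]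
  rw [Finset.sum_eq_single j]
  · simp only [Pi.single_eq_same]
    show X ^ (e + 1) * v * (m : Fin e → k⟦X⟧) j = X ^ (e + 1) * (v * coord j m) * 1
    rw [coord_apply]
    ring
  · intro b _ hb
    rw [Pi.single_eq_of_ne' hb, smul_zero]
  · intro h
    exact absurd (Finset.mem_univ j) h

/-- the span of the pure tensors of standard basis vectors -/
noncomputable def S0 : Submodule (cusp k (e + 1)) (PiTensorProduct (cusp k (e + 1)) (fun _ : Fin e => mod k e)) :=
  Submodule.span _ (Set.range fun b : Fin e → Fin e =>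
    PiTensorProduct.tprod (cusp k (e + 1)) (fun j => (g (b j).succ : mod k e)))

theorem mk0_smul_tprod_mem (v : k⟦X⟧) (m : Fin e → mod k e) :
    mk0 (e + 1) v • PiTensorProduct.tprod (cusp k (e + 1)) m ∈ (S0 : Submodule (cusp k (e + 1)) _) := by
  classical
  have key : ∀ (s : Finset (Fin e)) (m : Fin e → mod k e) (v : k⟦X⟧),
      (∀ j, j ∉ s → ∃ b : Fin e, m j = g b.succ) →
      mk0 (e + 1) v • PiTensorProduct.tprod (cusp k (e + 1)) m ∈
        (S0 : Submodule (cusp k (e + 1)) _) := by
    intro s
    induction s using Finset.induction_on with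
    | empty =>
      intro m v hm
      choose b hb using fun j => hm j (Finset.notMem_empty j)
      have : m = fun j => g (b j).succ := funext hb
      rw [this]
      exact Submodule.smul_mem _ _ (Submodule.subset_span ⟨b, rfl⟩)
    | insert i s hi ih =>
      intro m v hm
      have h1 : mk0 (e + 1) v • PiTensorProduct.tprod (cusp k (e + 1)) m =
          ∑ l : Fin e, mk0 (e + 1) (v * coord l (m i)) •
            PiTensorProduct.tprod (cusp k (e + 1)) (Function.update m i (g l.succ)) := by
        conv_lhs => rw [← Function.update_eq_self i m]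
        rw [← MultilinearMap.map_update_smul, mk0_smul, MultilinearMap.map_update_sum]
        refine Finset.sum_congr rfl fun l _ => ?_
        rw [MultilinearMap.map_update_smul]
      rw [h1]
      refine Submodule.sum_mem _ fun l _ => ih _ _ ?_
      intro j hj
      by_cases hji : j = i
      · subst hji
        exact ⟨l, by simp⟩
      · obtain ⟨b, hb⟩ := hm j (by simp [hji, hj])
        exact ⟨b, by rw [Function.update_of_ne hji, hb]⟩
  exact key Finset.univ m v (fun j hj => absurd (Finset.mem_univ j) hj)

/-- coordinates extended by zero -/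
noncomputable def ext (i : ℕ) : mod k e →ₗ[cusp k (e + 1)] k⟦X⟧ :=
  if h : i < e then coord ⟨i, h⟩ else 0

theorem ext_zero (i : ℕ) (h : i < e) : ext i (g 0 : mod k e) = X ^ (i + 1) := by
  rw [ext, dif_pos h]
  rfl

theorem ext_ge (i : ℕ) (h : ¬ i < e) (m : mod k e) : ext i m = 0 := by
  rw [ext, dif_neg h]
  rfl

theorem ext_succ (i : ℕ) (l : Fin e) : ext i (g l.succ : mod k e) = if i = l then 1 else 0 := by
  by_cases h : i < e
  · rw [ext, dif_pos h, coord_apply]
    have h1 : ((g l.succ : mod k e) : Fin e → k⟦X⟧) = Pi.single l 1 := rfl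
    rw [h1, Pi.single_apply]
    congr 1
    rw [Fin.ext_iff]
  · rw [ext_ge i h, if_neg]
    intro hi
    exact h (hi ▸ l.2)

/-- The linear functionals `θ_b`. -/
noncomputable def theta (b : ℕ) : mod k e →ₗ[cusp k (e + 1)] k⟦X⟧ :=
  match b with
  | 0 => ext 0
  | l + 1 => (LinearMap.mulLeft (cusp k (e + 1)) (X : k⟦X⟧)).comp (ext l) - ext (l + 1)

theorem theta_self (he : 0 < e) (b : Fin (e + 1)) : theta (b : ℕ) (g b : mod k e) = X := by
  induction b using Fin.cases with
  | zero =>
    show ext 0 (g 0) = X
    rw [ext_zero 0 he, zero_add, pow_one]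
  | succ l =>
    show (X : k⟦X⟧) * ext (l : ℕ) (g l.succ) - ext ((l : ℕ) + 1) (g l.succ) = X
    rw [ext_succ, ext_succ, if_pos rfl, if_neg (by omega), mul_one, sub_zero]

/-- `f` is a constant times `X ^ p`, up to a multiple of `X ^ (e + 1)` -/
def Mon (e p : ℕ) (f : k⟦X⟧) : Prop := ∃ (s : k) (t : k⟦X⟧), f = C s * X ^ p + X ^ (e + 1) * t

theorem Mon.mul {p q : ℕ} {f g : k⟦X⟧} (hf : Mon e p f) (hg : Mon e q g) : Mon e (p + q) (f * g) := by
  obtain ⟨s, t, rfl⟩ := hf
  obtain ⟨s', t', rfl⟩ := hg
  refine ⟨s * s', C s * X ^ p * t' + t * (C s' * X ^ q + X ^ (e + 1) * t'), ?_⟩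
  rw [map_mul]
  ring

theorem theta_ne (b a : Fin (e + 1)) (hab : a ≠ b) : Mon e 0 (theta (b : ℕ) (g a : mod k e)) := by
  have he : 0 < e := by
    by_contra h
    obtain rfl : e = 0 := by omega
    exact hab (Subsingleton.elim (α := Fin 1) _ _)
  induction b using Fin.cases with
  | zero =>
    induction a using Fin.cases with
    | zero => exact absurd rfl hab
    | succ l =>
      show Mon e 0 (ext 0 (g l.succ))
      rw [ext_succ]
      split_ifs
      · exact ⟨1, 0, by simp⟩
      · exact ⟨0, 0, by simp⟩
  | succ l =>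
    induction a using Fin.cases with
    | zero =>
      show Mon e 0 ((X : k⟦X⟧) * ext (l : ℕ) (g 0) - ext ((l : ℕ) + 1) (g 0))
      rw [ext_zero (l : ℕ) l.2]
      by_cases h : (l : ℕ) + 1 < e
      · rw [ext_zero _ h]
        exact ⟨0, 0, by ring_nf; simp⟩
      · rw [ext_ge _ h]
        have : (l : ℕ) + 1 = e := by omega
        exact ⟨0, 1, by rw [this]; ring_nf; simp⟩
    | succ l' =>
      show Mon e 0 ((X : k⟦X⟧) * ext (l : ℕ) (g l'.succ) - ext ((l : ℕ) + 1) (g l'.succ))
      rw [ext_succ, ext_succ, if_neg]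
      · split_ifs
        · exact ⟨-1, 0, by simp⟩
        · exact ⟨0, 0, by simp⟩
      · intro h
        exact hab (by rw [Fin.ext h])

/-- the product functional on the tensor power -/
noncomputable def Theta (b : Fin e → Fin (e + 1)) :
    PiTensorProduct (cusp k (e + 1)) (fun _ : Fin e => mod k e) →ₗ[cusp k (e + 1)] k⟦X⟧ :=
  PiTensorProduct.lift ((MultilinearMap.mkPiAlgebra (cusp k (e + 1)) (Fin e) k⟦X⟧).compLinearMap
    (fun j => theta (b j : ℕ)))

theorem Theta_tprod (b : Fin e → Fin (e + 1)) (m : Fin e → mod k e) :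
    Theta b (PiTensorProduct.tprod _ m) = ∏ j, theta (b j : ℕ) (m j) := by
  rw [Theta, PiTensorProduct.lift.tprod]
  rfl

theorem coeff_smul_self (he : 0 < e) (r : cusp k (e + 1)) (b : Fin e → Fin (e + 1)) :
    coeff e ((r : k⟦X⟧) * ∏ j, theta (b j : ℕ) (g (b j) : mod k e)) = constantCoeff (r : k⟦X⟧) := by
  have h1 : ∀ j, theta (b j : ℕ) (g (b j) : mod k e) = X := fun j => theta_self he _
  simp only [h1, Finset.prod_const, Finset.card_univ, Fintype.card_fin]
  rw [PowerSeries.coeff_mul_X_pow', if_pos le_rfl, Nat.sub_self, PowerSeries.coeff_zero_eq_constantCoeff]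

theorem coeff_smul_ne (r : cusp k (e + 1)) (b a : Fin e → Fin (e + 1)) (hab : a ≠ b) :
    coeff e ((r : k⟦X⟧) * ∏ j, theta (b j : ℕ) (g (a j) : mod k e)) = 0 := by
  classical
  have he : 0 < e := by
    by_contra h
    obtain rfl : e = 0 := by omega
    exact hab (Subsingleton.elim _ _)
  have key : ∀ s : Finset (Fin e), Mon e (s.filter fun j => a j = b j).card
      (∏ j ∈ s, theta (b j : ℕ) (g (a j) : mod k e)) := by
    intro s
    induction s using Finset.induction_on with
    | empty => exact ⟨1, 0, by simp⟩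
    | insert i s hi ih =>
      rw [Finset.prod_insert hi, Finset.filter_insert]
      by_cases h : a i = b i
      · rw [if_pos h, Finset.card_insert_of_notMem (by simp [hi]), add_comm]
        refine Mon.mul ?_ ih
        rw [h, theta_self he]
        exact ⟨1, 0, by simp⟩
      · rw [if_neg h]
        have := Mon.mul (theta_ne (k := k) (b i) (a i) h) ih
        rwa [zero_add] at this
  obtain ⟨s, t, hst⟩ := key Finset.univ
  have hlt : (Finset.univ.filter fun j => a j = b j).card < e := by
    have h1 : (Finset.univ.filter fun j => a j = b j) ≠ Finset.univ := by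
      intro h
      apply hab
      funext j
      have := h ▸ Finset.mem_univ j
      exact (Finset.mem_filter.1 this).2
    have h2 := Finset.card_lt_card (Finset.ssubset_univ_iff.2 h1)
    simpa using h2
  set p := (Finset.univ.filter fun j => a j = b j).card with hp
  obtain ⟨v, hv⟩ := exists_eq (by omega) r
  rw [hst]
  have h3 : (r : k⟦X⟧) * (C s * X ^ p + X ^ (e + 1) * t) =
      C (constantCoeff (r : k⟦X⟧) * s) * X ^ p + X ^ (e + 1) * (v * C s * X ^ p + (r : k⟦X⟧) * t) := by
    rw [mul_add, map_mul]
    have h4 : (r : k⟦X⟧) * (C s * X ^ p) =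
        (C (constantCoeff (r : k⟦X⟧)) + X ^ (e + 1) * v) * (C s * X ^ p) := by rw [← hv]
    rw [h4]
    ring
  rw [h3, map_add, PowerSeries.coeff_C_mul, PowerSeries.coeff_X_pow, if_neg (by omega), mul_zero,
    PowerSeries.coeff_X_pow_mul', if_neg (by omega), add_zero]

/-- the product of coordinates as a functional on the tensor power -/
noncomputable def Phi (b : Fin e → Fin e) :
    PiTensorProduct (cusp k (e + 1)) (fun _ : Fin e => mod k e) →ₗ[cusp k (e + 1)] k⟦X⟧ :=
  PiTensorProduct.lift ((MultilinearMap.mkPiAlgebra (cusp k (e + 1)) (Fin e) k⟦X⟧).compLinearMap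
    (fun j => coord (b j)))

theorem Phi_tprod (b a : Fin e → Fin e) :
    Phi b (PiTensorProduct.tprod _ fun j => (g (a j).succ : mod k e)) = if a = b then 1 else 0 := by
  rw [Phi, PiTensorProduct.lift.tprod]
  show ∏ j, coord (b j) (g (a j).succ : mod k e) = _
  have h1 : ∀ j, coord (b j) (g (a j).succ : mod k e) = if b j = a j then (1 : k⟦X⟧) else 0 := by
    intro j
    rw [coord_apply]
    have h1 : ((g (a j).succ : mod k e) : Fin e → k⟦X⟧) = Pi.single (a j) 1 := rfl
    rw [h1, Pi.single_apply]
  simp only [h1]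
  rw [Finset.prod_ite_zero]
  simp only [Finset.mem_univ, forall_const, Finset.prod_const_one]
  congr 1
  rw [funext_iff]
  exact propext ⟨fun h j => (h j).symm, fun h j => (h j).symm⟩

theorem smul_coe (r : cusp k (e + 1)) (f : k⟦X⟧) : r • f = (r : k⟦X⟧) * f := rfl

theorem torsion_tensorPower (he : 0 < e) :
    Submodule.torsion (cusp k (e + 1))
      (PiTensorProduct (cusp k (e + 1)) (fun _ : Fin e => mod k e)) = ⊥ := by
  rw [eq_bot_iff]
  intro z hz
  rw [Submodule.mem_bot]
  -- linear functionals kill z
  have hL : ∀ L : PiTensorProduct (cusp k (e + 1)) (fun _ : Fin e => mod k e) →ₗ[cusp k (e + 1)] k⟦X⟧,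
      L z = 0 := by
    intro L
    obtain ⟨r, hr⟩ := (Submodule.mem_torsion_iff z).1 hz
    have h1 : ((r : cusp k (e + 1)) : k⟦X⟧) * L z = 0 := by
      rw [← smul_coe, ← map_smul]
      have : (r : cusp k (e + 1)) • z = 0 := hr
      rw [this, map_zero]
    rcases mul_eq_zero.1 h1 with h | h
    · exact absurd (Subtype.ext h) (nonZeroDivisors.ne_zero r.2)
    · exact h
  have hz1 : z ∈ Submodule.span (cusp k (e + 1)) (Set.range fun a : Fin e → Fin (e + 1) =>
      PiTensorProduct.tprod (cusp k (e + 1)) (fun j => (g (a j) : mod k e))) := by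
    have h0 := span_tprod_gen (R := cusp k (e + 1)) (M := mod k e) (ι := Fin e)
      (g : Fin (e + 1) → mod k e) span_g
    rw [h0]
    trivial
  obtain ⟨c, hc⟩ := (Submodule.mem_span_range_iff_exists_fun _).1 hz1
  have hc0 : ∀ b, constantCoeff ((c b : cusp k (e + 1)) : k⟦X⟧) = 0 := by
    intro b
    have h1 := hL (Theta b)
    rw [← hc, map_sum] at h1
    simp only [map_smul, Theta_tprod, smul_coe] at h1
    have h2 := congrArg (coeff e) h1
    rw [map_sum, Finset.sum_eq_single b, coeff_smul_self he, map_zero] at h2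
    · exact h2
    · intro a _ hab
      exact coeff_smul_ne _ _ _ hab
    · intro h
      exact absurd (Finset.mem_univ b) h
  have hz2 : z ∈ (S0 : Submodule (cusp k (e + 1)) _) := by
    rw [← hc]
    refine Submodule.sum_mem _ fun a _ => ?_
    obtain ⟨v, hv⟩ := eq_mk0_of_constantCoeff (by omega) (c a) (hc0 a)
    rw [hv]
    exact mk0_smul_tprod_mem v _
  obtain ⟨s, hs⟩ := (Submodule.mem_span_range_iff_exists_fun _).1 hz2
  have hs0 : ∀ b, s b = 0 := by
    intro b
    have h1 := hL (Phi b)
    rw [← hs, map_sum] at h1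
    simp only [map_smul, Phi_tprod, smul_coe] at h1
    rw [Finset.sum_eq_single b, if_pos rfl, mul_one] at h1
    · exact Subtype.ext h1
    · intro a _ hab
      rw [if_neg hab, mul_zero]
    · intro h
      exact absurd (Finset.mem_univ b) h
  rw [← hs]
  exact Finset.sum_eq_zero fun b _ => by rw [hs0 b, zero_smul]

theorem torsion_mod : Submodule.torsion (cusp k (e + 1)) (mod k e) = ⊥ := by
  rw [eq_bot_iff]
  intro z hz
  rw [Submodule.mem_bot]
  obtain ⟨r, hr⟩ := (Submodule.mem_torsion_iff z).1 hz
  apply Subtype.ext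
  funext i
  have h1 : ((r : cusp k (e + 1)) : k⟦X⟧) * coord i z = 0 := by
    rw [← smul_coe, ← map_smul]
    have : (r : cusp k (e + 1)) • z = 0 := hr
    rw [this, map_zero]
  rcases mul_eq_zero.1 h1 with h | h
  · exact absurd (Subtype.ext h) (nonZeroDivisors.ne_zero r.2)
  · exact h

theorem finite_mod : Module.Finite (cusp k (e + 1)) (mod k e) :=
  Module.Finite.iff_fg.2 (Submodule.fg_span (Set.finite_range _))

/-- Every linear form on the module takes its values in the maximal ideal. -/
theorem constantCoeff_form (he : 0 < e) (f : mod k e →ₗ[cusp k (e + 1)] cusp k (e + 1)) (m : mod k e) :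
    constantCoeff ((f m : cusp k (e + 1)) : k⟦X⟧) = 0 := by
  have h1 : (X : k⟦X⟧) ^ (e + 1) * ((f (g 0) : cusp k (e + 1)) : k⟦X⟧) =
      X ^ (e + 1) * ∑ i : Fin e, X ^ ((i : ℕ) + 1) * ((f (g i.succ) : cusp k (e + 1)) : k⟦X⟧) := by
    have h2 := congrArg f (mk0_smul (1 : k⟦X⟧) (g 0 : mod k e))
    rw [map_smul, map_sum] at h2
    have h3 := congrArg (Subtype.val) h2
    rw [AddSubmonoidClass.coe_finsetSum] at h3
    simp only [map_smul, smul_eq_mul, MulMemClass.coe_mul, mk0_coe, mul_one, one_mul] at h3
    rw [h3, Finset.mul_sum]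
    refine Finset.sum_congr rfl fun i _ => ?_
    have h4 : coord i (g 0 : mod k e) = X ^ ((i : ℕ) + 1) := rfl
    rw [h4]
    ring
  have hX : (X : k⟦X⟧) ^ (e + 1) ≠ 0 := pow_ne_zero _ PowerSeries.X_ne_zero
  have h2 := mul_left_cancel₀ hX h1
  have h0 : constantCoeff ((f (g 0) : cusp k (e + 1)) : k⟦X⟧) = 0 := by
    rw [h2, map_sum]
    refine Finset.sum_eq_zero fun i _ => ?_
    rw [map_mul, map_pow, constantCoeff_X, zero_pow (by omega), zero_mul]
  obtain ⟨v, hv⟩ := eq_mk0_of_constantCoeff (by omega) _ h0
  have hs : ∀ i : Fin e, constantCoeff ((f (g i.succ) : cusp k (e + 1)) : k⟦X⟧) = 0 := by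
    intro i
    have h3 := congrArg (coeff ((i : ℕ) + 1)) h2
    rw [hv, mk0_coe, PowerSeries.coeff_X_pow_mul', if_neg (by omega), map_sum,
      Finset.sum_eq_single i] at h3
    · rw [PowerSeries.coeff_X_pow_mul', if_pos le_rfl, Nat.sub_self,
        PowerSeries.coeff_zero_eq_constantCoeff] at h3
      exact h3.symm
    · intro j _ hji
      obtain ⟨w, hw⟩ := exists_eq (by omega) (f (g j.succ))
      rw [hw, PowerSeries.coeff_X_pow_mul']
      split_ifs with h
      · rw [map_add, PowerSeries.coeff_C, if_neg, PowerSeries.coeff_X_pow_mul', if_neg (by omega), add_zero]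
        intro h'
        exact hji (Fin.ext (by omega))
      · rfl
    · intro h
      exact absurd (Finset.mem_univ i) h
  have hm : m ∈ Submodule.span (cusp k (e + 1)) (Set.range (g : Fin (e + 1) → mod k e)) := by
    rw [span_g]; trivial
  induction hm using Submodule.span_induction with
  | mem x hx =>
    obtain ⟨a, rfl⟩ := hx
    induction a using Fin.cases with
    | zero => exact h0
    | succ i => exact hs i
  | zero => rw [map_zero]; rfl
  | add x y _ _ hx hy => rw [map_add, AddMemClass.coe_add, map_add, hx, hy, add_zero]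
  | smul r x _ hx => rw [map_smul, smul_eq_mul, MulMemClass.coe_mul, map_mul, hx, mul_zero]

theorem not_free_mod (he : 0 < e) : ¬ Module.Free (cusp k (e + 1)) (mod k e) := by
  intro hfree
  let b := Module.Free.chooseBasis (cusp k (e + 1)) (mod k e)
  have hne : Nonempty (Module.Free.ChooseBasisIndex (cusp k (e + 1)) (mod k e)) := by
    by_contra h
    rw [not_nonempty_iff] at h
    have h1 : Subsingleton (mod k e) := b.repr.toEquiv.subsingleton
    have h2 : (g (Fin.succ ⟨0, he⟩) : mod k e) = 0 := Subsingleton.elim _ _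
    have h3 := congrArg (coord ⟨0, he⟩) h2
    rw [map_zero, coord_apply] at h3
    have h4 : ((g (Fin.succ ⟨0, he⟩) : mod k e) : Fin e → k⟦X⟧) = Pi.single ⟨0, he⟩ 1 := rfl
    rw [h4, Pi.single_eq_same] at h3
    exact one_ne_zero h3
  obtain ⟨i⟩ := hne
  have h1 := constantCoeff_form he (b.coord i) (b i)
  rw [Module.Basis.coord_apply, Module.Basis.repr_self, Finsupp.single_eq_same] at h1
  simp at h1

end Pool.Agent.H16.Cusp
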