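import Mathlib

/-!
# The rings `k + X ^ c k⟦X⟧`
-/

open PowerSeries

namespace Pool.Agent.H16.Cusp

universe u

/-- The subring `k + X ^ c k⟦X⟧` of the power series ring `k⟦X⟧`: the power series `f` such that
`f - a` is divisible by `X ^ c` for some constant `a`. -/
def cusp (k : Type u) [Field k] (c : ℕ) : Subalgebra k k⟦X⟧ where
  carrier := {f | ∃ a : k, (X : k⟦X⟧) ^ c ∣ f - C a}
  mul_mem' := by
    rintro f g ⟨a, u, hu⟩ ⟨b, v, hv⟩
    refine ⟨a * b, u * g + C a * v, ?_⟩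
    have h1 : f = C a + X ^ c * u := by rw [← hu]; ring
    have h2 : g = C b + X ^ c * v := by rw [← hv]; ring
    rw [map_mul]
    calc f * g - C a * C b = (f - C a) * g + C a * (g - C b) := by ring
      _ = _ := by rw [hu, hv]; ring
  add_mem' := by
    rintro f g ⟨a, ha⟩ ⟨b, hb⟩
    refine ⟨a + b, ?_⟩
    rw [map_add]
    have := dvd_add ha hb
    convert this using 1
    ring
  algebraMap_mem' := by
    intro a
    refine ⟨a, ?_⟩
    rw [PowerSeries.algebraMap_apply, Algebra.algebraMap_self, RingHom.id_apply, sub_self]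
    exact dvd_zero _

variable {k : Type u} [Field k] {c : ℕ}

theorem mem_cusp {f : k⟦X⟧} : f ∈ cusp k c ↔ ∃ a : k, (X : k⟦X⟧) ^ c ∣ f - C a := Iff.rfl

/-- elements of `X ^ c k⟦X⟧` -/
noncomputable def mk0 (c : ℕ) (v : k⟦X⟧) : cusp k c := ⟨X ^ c * v, 0, by simp⟩

@[simp] theorem mk0_coe (v : k⟦X⟧) : ((mk0 c v : cusp k c) : k⟦X⟧) = X ^ c * v := rfl

theorem mem_iff_constantCoeff {f : k⟦X⟧} (hc : 1 ≤ c) :
    f ∈ cusp k c ↔ (X : k⟦X⟧) ^ c ∣ f - C (constantCoeff f) := by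
  constructor
  · rintro ⟨a, ha⟩
    have h1 : (X : k⟦X⟧) ∣ f - C a := (dvd_pow_self _ (by omega)).trans ha
    rw [PowerSeries.X_dvd_iff] at h1
    have h2 : constantCoeff f = a := by
      rw [map_sub, sub_eq_zero] at h1
      rw [h1]
      simp
    rw [h2]
    exact ha
  · intro h
    exact ⟨_, h⟩

/-- every element is a constant plus an element of `X ^ c k⟦X⟧` -/
theorem exists_eq (hc : 1 ≤ c) (r : cusp k c) :
    ∃ v : k⟦X⟧, (r : k⟦X⟧) = C (constantCoeff (r : k⟦X⟧)) + X ^ c * v := by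
  obtain ⟨v, hv⟩ := (mem_iff_constantCoeff hc).1 r.2
  exact ⟨v, by rw [← hv]; ring⟩

theorem isUnit_iff (hc : 1 ≤ c) (r : cusp k c) : IsUnit r ↔ constantCoeff (r : k⟦X⟧) ≠ 0 := by
  constructor
  · intro h
    have h1 : IsUnit (r : k⟦X⟧) := h.map (cusp k c).val
    have h2 := h1.map (constantCoeff (R := k))
    exact h2.ne_zero
  · intro h
    obtain ⟨v, hv⟩ := exists_eq hc r
    set a := constantCoeff (r : k⟦X⟧) with ha
    have hu : (r : k⟦X⟧) * (r : k⟦X⟧)⁻¹ = 1 := PowerSeries.mul_inv_cancel _ h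
    have hmem : (r : k⟦X⟧)⁻¹ ∈ cusp k c := by
      refine ⟨a⁻¹, -(C a⁻¹ * v * (r : k⟦X⟧)⁻¹), ?_⟩
      have hCa : (C a⁻¹ : k⟦X⟧) * C a = 1 := by
        rw [← map_mul, inv_mul_cancel₀ h, map_one]
      have h3 : (C a⁻¹ : k⟦X⟧) * (r : k⟦X⟧) = 1 + C a⁻¹ * (X ^ c * v) := by
        conv_lhs => rw [hv]
        rw [mul_add, hCa]
      calc (r : k⟦X⟧)⁻¹ - C a⁻¹ = (r : k⟦X⟧)⁻¹ - C a⁻¹ * ((r : k⟦X⟧) * (r : k⟦X⟧)⁻¹) := by
            rw [hu, mul_one]
        _ = (1 - C a⁻¹ * (r : k⟦X⟧)) * (r : k⟦X⟧)⁻¹ := by ring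
        _ = _ := by rw [h3]; ring
    exact IsUnit.of_mul_eq_one ⟨_, hmem⟩ (Subtype.ext hu)

theorem isLocalRing (hc : 1 ≤ c) : IsLocalRing (cusp k c) := by
  refine IsLocalRing.of_nonunits_add ?_
  intro a b ha hb
  rw [mem_nonunits_iff, isUnit_iff hc, not_not] at ha hb ⊢
  rw [AddMemClass.coe_add, map_add, ha, hb, add_zero]

/-- The ideal `X ^ c k⟦X⟧` of `k + X ^ c k⟦X⟧` is finitely generated. -/
theorem span_range_mk0 (v : k⟦X⟧) :
    mk0 c v ∈ Ideal.span (Set.range fun i : Fin (c + 1) => mk0 c ((X : k⟦X⟧) ^ (i : ℕ))) := by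
  obtain ⟨w, hw⟩ : ∃ w : k⟦X⟧, v = ((PowerSeries.trunc c v : Polynomial k) : k⟦X⟧) + X ^ c * w := by
    have h1 : (X : k⟦X⟧) ^ c ∣ v - ((PowerSeries.trunc c v : Polynomial k) : k⟦X⟧) := by
      rw [PowerSeries.X_pow_dvd_iff]
      intro m hm
      rw [map_sub, Polynomial.coeff_coe, PowerSeries.coeff_trunc, if_pos hm, sub_self]
    obtain ⟨w, hw⟩ := h1
    exact ⟨w, by rw [← hw]; ring⟩
  have h2 : mk0 c v = ∑ i ∈ Finset.range c, (algebraMap k (cusp k c) (coeff i v)) * mk0 c ((X : k⟦X⟧) ^ i)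
      + mk0 c w * mk0 c 1 := by
    apply Subtype.ext
    rw [AddMemClass.coe_add, AddSubmonoidClass.coe_finsetSum]
    simp only [MulMemClass.coe_mul, mk0_coe, mul_one]
    conv_lhs => rw [hw]
    rw [mul_add]
    have h3 : (X : k⟦X⟧) ^ c * ((PowerSeries.trunc c v : Polynomial k) : k⟦X⟧) =
        ∑ i ∈ Finset.range c, ((algebraMap k (cusp k c) (coeff i v) : cusp k c) : k⟦X⟧) *
          (X ^ c * X ^ i) := by
      have h4 : ((PowerSeries.trunc c v : Polynomial k) : k⟦X⟧) =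
          ∑ i ∈ Finset.range c, C (coeff i v) * X ^ i := by
        ext m
        rw [Polynomial.coeff_coe, PowerSeries.coeff_trunc, map_sum]
        simp only [PowerSeries.coeff_C_mul, PowerSeries.coeff_X_pow, mul_ite, mul_one, mul_zero]
        rw [Finset.sum_ite_eq]
        simp
      rw [h4, Finset.mul_sum]
      refine Finset.sum_congr rfl fun i _ => ?_
      have h5 : ((algebraMap k (cusp k c) (coeff i v) : cusp k c) : k⟦X⟧) = C (coeff i v) := by
        rfl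
      rw [h5]
      ring
    rw [h3]
    ring
  rw [h2]
  refine Ideal.add_mem _ (Ideal.sum_mem _ fun i hi => Ideal.mul_mem_left _ _ ?_)
    (Ideal.mul_mem_left _ _ ?_)
  · exact Ideal.subset_span ⟨⟨i, by have := Finset.mem_range.1 hi; omega⟩, rfl⟩
  · exact Ideal.subset_span ⟨0, by simp⟩

theorem eq_mk0_of_constantCoeff (hc : 1 ≤ c) (r : cusp k c) (h : constantCoeff (r : k⟦X⟧) = 0) :
    ∃ v, r = mk0 c v := by
  obtain ⟨v, hv⟩ := exists_eq hc r
  refine ⟨v, Subtype.ext ?_⟩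
  rw [mk0_coe, hv, h, map_zero, zero_add]

/-- a nonzero prime contains all of `X ^ c k⟦X⟧` -/
theorem mk0_mem_of_prime (hc : 1 ≤ c) (P : Ideal (cusp k c)) [P.IsPrime] (hP : P ≠ ⊥) (v : k⟦X⟧) :
    mk0 c v ∈ P := by
  obtain ⟨f, hf, hf0⟩ := Submodule.exists_mem_ne_zero_of_ne_bot hP
  have hf0' : (f : k⟦X⟧) ≠ 0 := fun h => hf0 (Subtype.ext h)
  obtain ⟨g, hg⟩ : ∃ g : k⟦X⟧, (X : k⟦X⟧) ^ (f : k⟦X⟧).order.toNat = (f : k⟦X⟧) * g := by
    obtain ⟨w, hw, hu⟩ : ∃ w : k⟦X⟧, (f : k⟦X⟧) = X ^ (f : k⟦X⟧).order.toNat * w ∧ IsUnit w := by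
      refine ⟨divXPowOrder (f : k⟦X⟧), ?_, ?_⟩
      · rw [PowerSeries.X_pow_order_mul_divXPowOrder]
      · exact PowerSeries.isUnit_divided_by_X_pow_order hf0'
    obtain ⟨u, rfl⟩ := hu
    refine ⟨((u⁻¹ : k⟦X⟧ˣ) : k⟦X⟧), ?_⟩
    conv_rhs => rw [hw]
    rw [mul_assoc, Units.mul_inv, mul_one]
  set s := (f : k⟦X⟧).order.toNat with hs
  have h2 : ∃ t : k⟦X⟧, (mk0 c v) ^ (s + 1) = f * mk0 c t := by
    obtain ⟨c', rfl⟩ : ∃ c', c = c' + 1 := ⟨c - 1, by omega⟩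
    refine ⟨g * X ^ (c' * s) * v ^ (s + 1), Subtype.ext ?_⟩
    rw [SubmonoidClass.coe_pow, MulMemClass.coe_mul, mk0_coe, mk0_coe]
    calc (X ^ (c' + 1) * v) ^ (s + 1) = X ^ (c' + 1) * X ^ (c' * s) * (X ^ s) * v ^ (s + 1) := by
          rw [mul_pow, ← pow_mul, ← pow_add, ← pow_add]
          congr 2
          ring
      _ = _ := by rw [hg]; ring
  obtain ⟨t, ht⟩ := h2
  have h3 : (mk0 c v) ^ (s + 1) ∈ P := by
    rw [ht]
    exact P.mul_mem_right _ hf
  exact (inferInstance : P.IsPrime).mem_of_pow_mem _ h3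

theorem isNoetherianRing (hc : 1 ≤ c) : IsNoetherianRing (cusp k c) := by
  apply IsNoetherianRing.of_prime_ne_bot
  intro P hP hP0
  have hle : Ideal.span (Set.range fun i : Fin (c + 1) => mk0 c ((X : k⟦X⟧) ^ (i : ℕ))) = P := by
    apply le_antisymm
    · rw [Ideal.span_le]
      rintro _ ⟨i, rfl⟩
      exact mk0_mem_of_prime hc P hP0 _
    · intro r hr
      have h0 : constantCoeff (r : k⟦X⟧) = 0 := by
        by_contra h
        exact hP.ne_top (P.eq_top_of_isUnit_mem hr ((isUnit_iff hc r).2 h))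
      obtain ⟨v, rfl⟩ := eq_mk0_of_constantCoeff hc r h0
      exact span_range_mk0 v
  rw [← hle]
  exact Submodule.fg_span (Set.finite_range _)

theorem ringKrullDim_cusp (hc : 1 ≤ c) : ringKrullDim (cusp k c) = 1 := by
  have := isLocalRing (k := k) hc
  rw [ringKrullDim_eq_one_iff_of_isLocalRing_isDomain]
  constructor
  · intro hF
    have h1 : (mk0 c (1 : k⟦X⟧) : cusp k c) ≠ 0 := by
      intro h
      have := congrArg Subtype.val h
      rw [mk0_coe, mul_one] at this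
      exact pow_ne_zero c PowerSeries.X_ne_zero this
    have h2 : IsUnit (mk0 c (1 : k⟦X⟧) : cusp k c) := by
      obtain ⟨y, hy⟩ := hF.mul_inv_cancel h1
      exact IsUnit.of_mul_eq_one y hy
    rw [isUnit_iff hc] at h2
    apply h2
    rw [mk0_coe, mul_one, map_pow, constantCoeff_X, zero_pow (by omega)]
  · intro x hx
    rw [Ideal.radical_eq_sInf]
    refine le_sInf ?_
    rintro P ⟨hxP, hP⟩
    have := hP
    intro r hr
    have h0 : constantCoeff (r : k⟦X⟧) = 0 := by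
      by_contra h
      exact (IsLocalRing.mem_maximalIdeal r).1 hr ((isUnit_iff hc r).2 h)
    obtain ⟨v, rfl⟩ := eq_mk0_of_constantCoeff hc r h0
    refine mk0_mem_of_prime hc P ?_ v
    rintro rfl
    exact hx (by simpa using hxP)

end Pool.Agent.H16.Cusp
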