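import Pool.Agent.H16.TensorTorsion

/-!
# Torsion in tensor powers of modules that are not free

Let `R` be a Noetherian local domain, `x ≠ 0` an element of the maximal ideal such that every ideal of
`R ⧸ (x)` is generated by `N` elements.  Then the `(N + 1)`-th tensor power of every finitely generated
module that is not free has nontrivial torsion.
-/

open scoped TensorProduct

namespace Pool.Agent.H16.TP

universe u

section presentation

variable {R : Type*} [CommRing R] {M : Type*} [AddCommGroup M] [Module R M]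

theorem remove_generator {n : ℕ} (m : Fin (n + 1) → M) (hm : Submodule.span R (Set.range m) = ⊤)
    (r : Fin (n + 1) → R) (hr : ∑ i, r i • m i = 0) (i : Fin (n + 1)) (hi : IsUnit (r i)) :
    Submodule.span R (Set.range fun j => m (i.succAbove j)) = ⊤ := by
  classical
  have hsub : ∀ l, l ≠ i → m l ∈ Submodule.span R (Set.range fun j => m (i.succAbove j)) := by
    intro l hl
    obtain ⟨j, hj⟩ := Fin.exists_succAbove_eq hl
    exact Submodule.subset_span ⟨j, by simp only [hj]⟩
  rw [eq_top_iff, ← hm, Submodule.span_le]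
  rintro _ ⟨l, rfl⟩
  by_cases hl : l = i
  · subst hl
    obtain ⟨u, hu⟩ := hi
    have h1 : m l = (-(↑u⁻¹ : R)) • ∑ j ∈ Finset.univ.erase l, r j • m j := by
      have h2 : r l • m l + ∑ j ∈ Finset.univ.erase l, r j • m j = 0 := by
        rw [Finset.add_sum_erase _ (fun j => r j • m j) (Finset.mem_univ l), hr]
      have h3 : ∑ j ∈ Finset.univ.erase l, r j • m j = - (r l • m l) := by
        rw [eq_neg_iff_add_eq_zero, add_comm, h2]
      rw [h3, ← hu, neg_smul_neg, smul_smul, Units.inv_mul, one_smul]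
    rw [h1]
    refine Submodule.smul_mem _ _ (Submodule.sum_mem _ fun j hj => Submodule.smul_mem _ _ ?_)
    exact hsub j (Finset.ne_of_mem_erase hj)
  · exact hsub l hl

/-- existence of minimal generators -/
theorem exists_minimal_generators [IsLocalRing R] [Module.Finite R M] :
    ∃ (n : ℕ) (m : Fin n → M), Submodule.span R (Set.range m) = ⊤ ∧
      ∀ r : Fin n → R, ∑ i, r i • m i = 0 → ∀ i, r i ∈ IsLocalRing.maximalIdeal R := by
  classical
  have hex : ∃ (n : ℕ), ∃ (m : Fin n → M), Submodule.span R (Set.range m) = ⊤ :=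
    Module.Finite.exists_fin
  obtain ⟨n, m, hm, hmin⟩ : ∃ (n : ℕ) (m : Fin n → M), Submodule.span R (Set.range m) = ⊤ ∧
      ∀ n' < n, ¬ ∃ (m : Fin n' → M), Submodule.span R (Set.range m) = ⊤ := by
    obtain ⟨m, hm⟩ := Nat.find_spec hex
    exact ⟨_, m, hm, fun n' hn' => Nat.find_min hex hn'⟩
  refine ⟨n, m, hm, ?_⟩
  intro r hr i hi
  have hi' : IsUnit (r i) := by
    by_contra h
    exact h hi
  cases n with
  | zero => exact i.elim0
  | succ n => exact hmin n (Nat.lt_succ_self n) ⟨_, remove_generator m hm r hr i hi'⟩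

end presentation

section functionals

variable {R : Type*} [CommRing R] {M : Type*} [AddCommGroup M] [Module R M]

/-- coordinate functionals modulo the ideal of the coordinates of the relations -/
theorem exists_coord {n : ℕ} (m : Fin n → M) (hm : Submodule.span R (Set.range m) = ⊤) (c : Ideal R)
    (hc : ∀ r : Fin n → R, ∑ i, r i • m i = 0 → ∀ i, r i ∈ c) (g : Fin n) :
    ∃ f : M →ₗ[R] (R ⧸ c), ∀ r : Fin n → R, f (∑ i, r i • m i) = Ideal.Quotient.mk c (r g) := by
  let π : (Fin n → R) →ₗ[R] M := Fintype.linearCombination R m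
  have hπ : ∀ r, π r = ∑ i, r i • m i := fun r => Fintype.linearCombination_apply R m r
  have hsurj : Function.Surjective π := by
    rw [← LinearMap.range_eq_top, Fintype.range_linearCombination, hm]
  let p : (Fin n → R) →ₗ[R] (R ⧸ c) := (Submodule.mkQ c).comp (LinearMap.proj g)
  have hp : LinearMap.ker π ≤ LinearMap.ker p := by
    intro r hr
    rw [LinearMap.mem_ker, hπ] at hr
    rw [LinearMap.mem_ker]
    show Ideal.Quotient.mk c (r g) = 0
    rw [Ideal.Quotient.eq_zero_iff_mem]
    exact hc r hr g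
  refine ⟨((LinearMap.ker π).liftQ p hp).comp (π.quotKerEquivOfSurjective hsurj).symm.toLinearMap, ?_⟩
  intro r
  rw [← hπ]
  have h1 : (π.quotKerEquivOfSurjective hsurj).symm (π r) = (LinearMap.ker π).mkQ r := by
    rw [LinearEquiv.symm_apply_eq]
    rfl
  rw [LinearMap.comp_apply, LinearEquiv.coe_coe, h1]
  rfl

end functionals

section claim

variable {R : Type*} [CommRing R] [IsLocalRing R] [IsNoetherianRing R]
  {M : Type*} [AddCommGroup M] [Module R M]

omit [IsLocalRing R] [IsNoetherianRing R] in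
theorem mem_span_range_sup {N : ℕ} (a : Fin N → R) (X c : R)
    (h : c ∈ Ideal.span (Set.range a) ⊔ Ideal.span {X}) :
    ∃ (r : Fin N → R) (b : R), c = ∑ j, r j * a j + X * b := by
  obtain ⟨y, hy, z, hz, rfl⟩ := Submodule.mem_sup.1 h
  obtain ⟨r, rfl⟩ := (Submodule.mem_span_range_iff_exists_fun R).1 hy
  obtain ⟨b, rfl⟩ := Ideal.mem_span_singleton'.1 hz
  exact ⟨r, b, by simp only [smul_eq_mul]; rw [mul_comm b X]⟩

/-- The key claim. -/
theorem exists_X {n : ℕ} (m : Fin n → M) (g0 : Fin n)
    (c : Ideal R) (hcdef : c = Ideal.span {s | ∃ r : Fin n → R, ∑ i, r i • m i = 0 ∧ ∃ g, s = r g})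
    (hctop : c ≠ ⊤) (x : R) (hx : x ∈ IsLocalRing.maximalIdeal R) {N : ℕ} (a : Fin N → R)
    (ha : ∀ j, a j ∈ c) (hca : c ≤ Ideal.span (Set.range a) ⊔ Ideal.span {x}) :
    ∃ (X : R), c ≤ Ideal.span (Set.range a) ⊔ Ideal.span {X} ∧
      ∃ (r : Fin n → R) (α : Fin N → M), X • (∑ i, r i • m i) = ∑ j, a j • α j ∧ ∃ g, r g ∉ c := by
  classical
  have hale : Ideal.span (Set.range a) ≤ c := by
    rw [Ideal.span_le]
    rintro _ ⟨j, rfl⟩
    exact ha j
  by_cases hP : ∃ i : ℕ, ∃ b, x ^ i * b ∈ c ∧ b ∉ c
  · set i0 := Nat.find hP with hi0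
    obtain ⟨b0, hb0, hb0'⟩ := Nat.find_spec hP
    have hmin : ∀ i < i0, ∀ b, x ^ i * b ∈ c → b ∈ c := by
      intro i hi b hb
      by_contra h
      exact Nat.find_min hP hi ⟨b, hb, h⟩
    have hle : ∀ i ≤ i0, c ≤ Ideal.span (Set.range a) ⊔ Ideal.span {x ^ i} := by
      intro i
      induction i with
      | zero =>
        intro _
        rw [pow_zero, Ideal.span_singleton_one]
        exact le_sup_of_le_right le_top
      | succ i ih =>
        intro hi s hs
        obtain ⟨y, hy, z, hz, rfl⟩ := Submodule.mem_sup.1 (ih (by omega) hs)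
        obtain ⟨b, rfl⟩ := Ideal.mem_span_singleton'.1 hz
        have h1 : x ^ i * b ∈ c := by
          have := c.sub_mem hs (hale hy)
          rwa [add_sub_cancel_left, mul_comm] at this
        have h2 := hca (hmin i (by omega) b h1)
        obtain ⟨y', hy', z', hz', rfl⟩ := Submodule.mem_sup.1 h2
        obtain ⟨b', rfl⟩ := Ideal.mem_span_singleton'.1 hz'
        have h3 : y + (y' + b' * x) * x ^ i = (y + x ^ i * y') + b' * x ^ (i + 1) := by ring
        rw [h3]
        refine Submodule.add_mem_sup (Ideal.add_mem _ hy (Ideal.mul_mem_left _ _ hy')) ?_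
        exact Ideal.mul_mem_left _ _ (Ideal.mem_span_singleton_self _)
    refine ⟨x ^ i0, hle i0 le_rfl, ?_⟩
    by_contra hcon
    push Not at hcon
    -- all the elements of `(a M : X)` have coordinates in `c`
    have h1 : ∀ s ∈ c, ∃ (ρ : Fin N → R) (b : R), b ∈ c ∧ s = ∑ j, ρ j * a j + x ^ i0 * b := by
      intro s hs
      rw [hcdef] at hs
      induction hs using Submodule.span_induction with
      | mem s hs =>
        obtain ⟨r, hr, g, rfl⟩ := hs
        have h2 : ∀ g, ∃ (ρ : Fin N → R) (b : R), r g = ∑ j, ρ j * a j + x ^ i0 * b := by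
          intro g
          apply mem_span_range_sup
          apply hle i0 le_rfl
          rw [hcdef]
          exact Ideal.subset_span ⟨r, hr, g, rfl⟩
        choose ρ b hρ using h2
        refine ⟨ρ g, b g, ?_, hρ g⟩
        refine hcon b (fun j => - ∑ i, ρ i j • m i) ?_ g
        have h3 : ∑ i, (∑ j, ρ i j * a j + x ^ i0 * b i) • m i = 0 := by
          rw [← hr]
          exact Finset.sum_congr rfl fun i _ => by rw [← hρ i]
        have h4 : ∑ i, (∑ j, ρ i j * a j + x ^ i0 * b i) • m i =
            ∑ j, a j • (∑ i, ρ i j • m i) + x ^ i0 • ∑ i, b i • m i := by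
          rw [Finset.smul_sum]
          simp only [Finset.smul_sum, add_smul, Finset.sum_add_distrib, Finset.sum_smul, mul_smul]
          rw [Finset.sum_comm]
          congr 1
          refine Finset.sum_congr rfl fun j _ => Finset.sum_congr rfl fun i _ => ?_
          rw [smul_comm]
        rw [h4] at h3
        simp only [smul_neg, Finset.sum_neg_distrib]
        exact (eq_neg_of_add_eq_zero_right h3)
      | zero => exact ⟨0, 0, c.zero_mem, by simp⟩
      | add s t _ _ hs ht =>
        obtain ⟨ρ, b, hb, rfl⟩ := hs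
        obtain ⟨ρ', b', hb', rfl⟩ := ht
        refine ⟨ρ + ρ', b + b', c.add_mem hb hb', ?_⟩
        simp only [Pi.add_apply, add_mul, Finset.sum_add_distrib]
        ring
      | smul r s _ hs =>
        obtain ⟨ρ, b, hb, rfl⟩ := hs
        refine ⟨fun j => r * ρ j, r * b, c.mul_mem_left _ hb, ?_⟩
        rw [smul_eq_mul, mul_add, Finset.mul_sum]
        congr 1
        · exact Finset.sum_congr rfl fun j _ => by ring
        · ring
    obtain ⟨ρ, b, hb, hs⟩ := h1 _ hb0
    apply hb0'
    have h2 : b0 - b ∈ c := by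
      have h3 := hcon (Pi.single g0 (b0 - b)) (fun j => ρ j • m g0) ?_ g0
      · rwa [Pi.single_eq_same] at h3
      · have h4 : ∑ i, (Pi.single g0 (b0 - b) : Fin n → R) i • m i = (b0 - b) • m g0 := by
          rw [Finset.sum_eq_single g0]
          · rw [Pi.single_eq_same]
          · intro i _ hi
            rw [Pi.single_eq_of_ne hi, zero_smul]
          · intro h
            exact absurd (Finset.mem_univ g0) h
        rw [h4, smul_smul]
        have h5 : x ^ i0 * (b0 - b) = ∑ j, ρ j * a j := by
          rw [mul_sub, hs]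
          ring
        rw [h5, Finset.sum_smul]
        exact Finset.sum_congr rfl fun j _ => by rw [smul_smul, mul_comm]
    have := c.add_mem h2 hb
    rwa [sub_add_cancel] at this
  · push Not at hP
    -- `c = span a` by Krull's intersection theorem
    have hle : ∀ i : ℕ, c ≤ Ideal.span (Set.range a) ⊔ Ideal.span {x ^ i} := by
      intro i
      induction i with
      | zero =>
        rw [pow_zero, Ideal.span_singleton_one]
        exact le_sup_of_le_right le_top
      | succ i ih =>
        intro s hs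
        obtain ⟨y, hy, z, hz, rfl⟩ := Submodule.mem_sup.1 (ih hs)
        obtain ⟨b, rfl⟩ := Ideal.mem_span_singleton'.1 hz
        have h1 : x ^ i * b ∈ c := by
          have := c.sub_mem hs (hale hy)
          rwa [add_sub_cancel_left, mul_comm] at this
        have h2 := hca (hP i b h1)
        obtain ⟨y', hy', z', hz', rfl⟩ := Submodule.mem_sup.1 h2
        obtain ⟨b', rfl⟩ := Ideal.mem_span_singleton'.1 hz'
        have h3 : y + (y' + b' * x) * x ^ i = (y + x ^ i * y') + b' * x ^ (i + 1) := by ring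
        rw [h3]
        refine Submodule.add_mem_sup (Ideal.add_mem _ hy (Ideal.mul_mem_left _ _ hy')) ?_
        exact Ideal.mul_mem_left _ _ (Ideal.mem_span_singleton_self _)
    have hle' : c ≤ Ideal.span (Set.range a) := by
      intro s hs
      rw [← Ideal.Quotient.eq_zero_iff_mem]
      have hbot := Ideal.iInf_pow_smul_eq_bot_of_isLocalRing (M := R ⧸ Ideal.span (Set.range a))
        (Ideal.span {x}) (by
          intro h
          have h1 : (1 : R) ∈ Ideal.span {x} := by rw [h]; trivial
          have h2 : (1 : R) ∈ IsLocalRing.maximalIdeal R :=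
            (Ideal.span_le.2 (Set.singleton_subset_iff.2 hx)) h1
          exact (IsLocalRing.mem_maximalIdeal _).1 h2 isUnit_one)
      have h1 : (Ideal.Quotient.mk (Ideal.span (Set.range a)) s) ∈
          (⨅ i : ℕ, Ideal.span {x} ^ i • ⊤ : Submodule R (R ⧸ Ideal.span (Set.range a))) := by
        rw [Submodule.mem_iInf]
        intro i
        obtain ⟨y, hy, z, hz, hyz⟩ := Submodule.mem_sup.1 (hle i hs)
        obtain ⟨b, rfl⟩ := Ideal.mem_span_singleton'.1 hz
        rw [← hyz, map_add, Ideal.Quotient.eq_zero_iff_mem.2 hy, zero_add, mul_comm]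
        have h2 : Ideal.Quotient.mk (Ideal.span (Set.range a)) (x ^ i * b) =
            x ^ i • Ideal.Quotient.mk (Ideal.span (Set.range a)) b := rfl
        rw [h2]
        refine Submodule.smul_mem_smul ?_ trivial
        rw [Ideal.span_singleton_pow]
        exact Ideal.mem_span_singleton_self _
      rw [hbot, Submodule.mem_bot] at h1
      exact h1
    refine ⟨0, le_sup_of_le_left hle', Pi.single g0 1, 0, ?_, g0, ?_⟩
    · simp
    · rw [Pi.single_eq_same]
      intro h
      exact hctop ((Ideal.eq_top_iff_one c).2 h)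

end claim

/-- The main theorem on torsion in tensor powers. -/
theorem main {R : Type*} [CommRing R] [IsDomain R] [IsLocalRing R] [IsNoetherianRing R]
    (x : R) (hx : x ∈ IsLocalRing.maximalIdeal R) (N : ℕ)
    (hN : ∀ J : Ideal (R ⧸ Ideal.span {x}), ∃ b : Fin N → R ⧸ Ideal.span {x}, Ideal.span (Set.range b) = J)
    (M : Type*) [AddCommGroup M] [Module R M] [Module.Finite R M] (hM : ¬ Module.Free R M) :
    Submodule.torsion R (TensorPower R (N + 1) M) ≠ ⊥ := by
  classical
  obtain ⟨n, m, hm, hmin⟩ := exists_minimal_generators (R := R) (M := M)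
  -- there is a nonzero relation
  obtain ⟨r0, hr0, g0, hg0⟩ : ∃ r0 : Fin n → R, ∑ i, r0 i • m i = 0 ∧ ∃ g0, r0 g0 ≠ 0 := by
    by_contra hcon
    push Not at hcon
    apply hM
    have hli : LinearIndependent R m := Fintype.linearIndependent_iff.2 hcon
    exact Module.Free.of_basis (Module.Basis.mk hli hm.ge)
  set S : Set R := {s | ∃ r : Fin n → R, ∑ i, r i • m i = 0 ∧ ∃ g, s = r g} with hS
  set c : Ideal R := Ideal.span S with hc
  have hcoord : ∀ r : Fin n → R, ∑ i, r i • m i = 0 → ∀ i, r i ∈ c := fun r hr i =>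
    Ideal.subset_span ⟨r, hr, i, rfl⟩
  have hcle : c ≤ IsLocalRing.maximalIdeal R := by
    rw [hc, Ideal.span_le]
    rintro _ ⟨r, hr, g, rfl⟩
    exact hmin r hr g
  have hctop : c ≠ ⊤ := by
    intro h
    have : (1 : R) ∈ c := by rw [h]; trivial
    exact (IsLocalRing.mem_maximalIdeal _).1 (hcle this) isUnit_one
  -- generators of `c` modulo `x`
  obtain ⟨a, haS, hca⟩ : ∃ a : Fin N → R, (∀ j, a j ∈ S) ∧
      c ≤ Ideal.span (Set.range a) ⊔ Ideal.span {x} := by
    have hxtop : Ideal.span {x} ≠ ⊤ := by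
      intro h
      have h1 : (1 : R) ∈ Ideal.span {x} := by rw [h]; trivial
      have h2 : (1 : R) ∈ IsLocalRing.maximalIdeal R :=
        (Ideal.span_le.2 (Set.singleton_subset_iff.2 hx)) h1
      exact (IsLocalRing.mem_maximalIdeal _).1 h2 isUnit_one
    have : Nontrivial (R ⧸ Ideal.span {x}) := Ideal.Quotient.nontrivial_iff.2 hxtop
    have : IsLocalRing (R ⧸ Ideal.span {x}) :=
      IsLocalRing.of_surjective' (Ideal.Quotient.mk _) Ideal.Quotient.mk_surjective
    obtain ⟨b, hb⟩ := hN (Ideal.span (Ideal.Quotient.mk (Ideal.span {x}) '' S))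
    obtain ⟨a', ha', hspan⟩ := exchange (R := R ⧸ Ideal.span {x}) (M := R ⧸ Ideal.span {x})
      (Ideal.Quotient.mk (Ideal.span {x}) '' S) ⟨0, ⟨0, by simp, g0, rfl⟩, map_zero _⟩ b hb
    choose a haS haeq using ha'
    refine ⟨a, haS, ?_⟩
    intro s hs
    have h1 : Ideal.Quotient.mk (Ideal.span {x}) s ∈
        Ideal.span (Ideal.Quotient.mk (Ideal.span {x}) '' S) := by
      rw [← Ideal.map_span]
      exact Ideal.mem_map_of_mem _ hs
    have h2 : Ideal.Quotient.mk (Ideal.span {x}) s ∈
        (Ideal.span (Set.range a)).map (Ideal.Quotient.mk (Ideal.span {x})) := by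
      rw [Ideal.map_span, ← Set.range_comp]
      have h3 : (Ideal.Quotient.mk (Ideal.span {x})) ∘ a = a' := funext haeq
      have h6 : Ideal.span (Set.range a') =
          Ideal.span (Ideal.Quotient.mk (Ideal.span {x}) '' S) := hspan
      rw [h3, h6]
      exact h1
    obtain ⟨s', hs', hss'⟩ := (Ideal.mem_map_iff_of_surjective _ Ideal.Quotient.mk_surjective).1 h2
    have h4 : s - s' ∈ Ideal.span {x} := (Ideal.Quotient.eq.1 hss'.symm)
    have h5 : s = s' + (s - s') := by ring
    rw [h5]
    exact Submodule.add_mem_sup hs' h4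
  choose κ hκ gi hgi using haS
  have hac : ∀ j, a j ∈ c := fun j => by
    rw [hgi j]
    exact hcoord _ (hκ j) _
  obtain ⟨X, hcX, r, α, hα, g1, hg1⟩ := exists_X m g0 c hc hctop x hx a hac hca
  -- expand the relations
  have hexp : ∀ (i : Fin N) (g : Fin n), ∃ (ρ : Fin N → R) (b : R),
      κ i g = ∑ j, ρ j * a j + X * b ∧ (g = gi i → (∀ j, ρ j = if j = i then 1 else 0) ∧ b = 0) := by
    intro i g
    by_cases h : g = gi i
    · subst h
      refine ⟨fun j => if j = i then 1 else 0, 0, ?_, fun _ => ⟨fun j => rfl, rfl⟩⟩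
      rw [← hgi i]
      simp
    · obtain ⟨ρ, b, hb⟩ := mem_span_range_sup a X (κ i g) (hcX (hcoord _ (hκ i) g))
      exact ⟨ρ, b, hb, fun h' => absurd h' h⟩
  choose ρ β hρ hδ using hexp
  -- functionals
  choose f hf using exists_coord m hm c hcoord
  let x' : Fin (N + 1) → R := Fin.cons X a
  let col : Fin (N + 1) → (Fin (N + 1) → M) :=
    Fin.cons (Fin.cons (∑ i, r i • m i) (fun i => ∑ g, β i g • m g))
      (fun j => Fin.cons (- α j) (fun i => ∑ g, ρ i g j • m g))
  let F : Fin (N + 1) → (M →ₗ[R] (R ⧸ c)) := Fin.cons (f g1) (fun i => f (gi i))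
  have hsum : ∑ j, x' j • col j = 0 := by
    rw [Fin.sum_univ_succ]
    funext i
    simp only [Pi.add_apply, Finset.sum_apply, Pi.smul_apply, x', col, Fin.cons_zero, Fin.cons_succ,
      Pi.zero_apply]
    induction i using Fin.cases with
    | zero =>
      simp only [Fin.cons_zero, smul_neg, Finset.sum_neg_distrib]
      rw [hα, add_neg_cancel]
    | succ i =>
      simp only [Fin.cons_succ]
      have h1 : ∑ g, κ i g • m g = 0 := hκ i
      have h2 : ∑ g, κ i g • m g = X • ∑ g, β i g • m g + ∑ j, a j • ∑ g, ρ i g j • m g := by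
        have h3 : ∑ g, κ i g • m g = ∑ g, (∑ j, ρ i g j * a j + X * β i g) • m g :=
          Finset.sum_congr rfl fun g _ => by rw [← hρ i g]
        rw [h3, add_comm]
        simp only [Finset.smul_sum, add_smul, Finset.sum_add_distrib, Finset.sum_smul, mul_smul]
        rw [Finset.sum_comm]
        congr 1
        refine Finset.sum_congr rfl fun j _ => Finset.sum_congr rfl fun g _ => ?_
        rw [smul_comm]
      rw [← h2, h1]
  -- some `x' l` is nonzero
  obtain ⟨l, hl⟩ : ∃ l, x' l ≠ 0 := by
    by_contra hcon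
    push Not at hcon
    have hX0 : X = 0 := hcon 0
    have ha0 : ∀ j, a j = 0 := fun j => hcon j.succ
    have h1 := hcX (hcoord r0 hr0 g0)
    obtain ⟨ρ', b', hb'⟩ := mem_span_range_sup a X _ h1
    apply hg0
    rw [hb', hX0]
    simp [ha0]
  refine torsion_ne_bot x' col hsum l hl F ?_
  rw [Matrix.det_succ_row_zero, Fin.sum_univ_succ]
  have hrow : ∀ i : Fin N, (Matrix.of fun j i => F i (col j i)) 0 i.succ = 0 := by
    intro i
    show F i.succ (col 0 i.succ) = 0
    simp only [F, col, Fin.cons_zero, Fin.cons_succ]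
    rw [hf, ((hδ i (gi i)) rfl).2, map_zero]
  have hsub : (Matrix.of fun j i => F i (col j i)).submatrix Fin.succ (Fin.succAbove 0) =
      (1 : Matrix (Fin N) (Fin N) (R ⧸ c)) := by
    ext j i
    rw [Matrix.submatrix_apply, Fin.succAbove_zero]
    show F i.succ (col j.succ i.succ) = _
    simp only [F, col, Fin.cons_succ]
    rw [hf, ((hδ i (gi i)) rfl).1, Matrix.one_apply]
    split_ifs <;> simp
  simp only [hrow, mul_zero, zero_mul, Finset.sum_const_zero, add_zero]
  rw [hsub, Matrix.det_one]
  show (-1) ^ ((0 : Fin (N + 1)) : ℕ) * (F 0 (col 0 0)) * 1 ≠ 0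
  simp only [F, col, Fin.cons_zero, Fin.val_zero, pow_zero, one_mul, mul_one]
  rw [hf, Ne, Ideal.Quotient.eq_zero_iff_mem]
  exact hg1

end Pool.Agent.H16.TP
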