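import Mathlib

/-!
# Torsion elements in tensor powers

If `x : Fin e → R` and `c : Fin e → (Fin e → M)` satisfy `∑ j, x j • c j = 0`, then the element
`D c = ∑ σ, sign σ • ⨂ i, c (σ i) i` of the `e`-th tensor power of `M` is killed by all `x j`.
It is nonzero as soon as some determinant of linear functionals does not vanish.
-/

open scoped TensorProduct

namespace Pool.Agent.H16.TP

universe u

variable {R : Type*} [CommRing R] {M : Type*} [AddCommGroup M] [Module R M] {e : ℕ}

/-- the multilinear map `n ↦ ⨂ i, (n i) i` -/
noncomputable def diagTensor (R : Type*) [CommRing R] (M : Type*) [AddCommGroup M] [Module R M] (e : ℕ) :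
    MultilinearMap R (fun _ : Fin e => (Fin e → M)) (TensorPower R e M) :=
  (PiTensorProduct.tprod R).compLinearMap (fun i => LinearMap.proj i)

/-- the alternating map `c ↦ ∑ σ, sign σ • ⨂ i, c (σ i) i` -/
noncomputable def D (R : Type*) [CommRing R] (M : Type*) [AddCommGroup M] [Module R M] (e : ℕ) :
    (Fin e → M) [⋀^Fin e]→ₗ[R] (TensorPower R e M) :=
  MultilinearMap.alternatization (diagTensor R M e)

theorem D_apply (c : Fin e → (Fin e → M)) :
    D R M e c = ∑ σ : Equiv.Perm (Fin e), Equiv.Perm.sign σ •
      PiTensorProduct.tprod R (fun i => c (σ i) i) := by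
  rw [D, MultilinearMap.alternatization_apply]
  rfl

theorem smul_D_eq_zero (x : Fin e → R) (c : Fin e → (Fin e → M)) (h : ∑ j, x j • c j = 0) (l : Fin e) :
    x l • D R M e c = 0 := by
  classical
  have h1 : D R M e (Function.update c l (∑ j, x j • c j)) = 0 := by
    rw [h]
    exact (D R M e).map_update_zero c l
  rw [AlternatingMap.map_update_sum] at h1
  rw [Finset.sum_eq_single l] at h1
  · rw [AlternatingMap.map_update_smul, Function.update_eq_self] at h1
    exact h1
  · intro j _ hj
    rw [AlternatingMap.map_update_smul]
    have : D R M e (Function.update c l (c j)) = 0 :=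
      (D R M e).map_update_self c (Ne.symm hj)
    rw [this, smul_zero]
  · intro hl
    exact absurd (Finset.mem_univ l) hl

/-- the product of linear functionals with values in an algebra, on the tensor power -/
noncomputable def prodForm {Q : Type*} [CommRing Q] [Algebra R Q] (f : Fin e → (M →ₗ[R] Q)) :
    TensorPower R e M →ₗ[R] Q :=
  PiTensorProduct.lift ((MultilinearMap.mkPiAlgebra R (Fin e) Q).compLinearMap f)

theorem prodForm_tprod {Q : Type*} [CommRing Q] [Algebra R Q] (f : Fin e → (M →ₗ[R] Q))
    (m : Fin e → M) : prodForm f (PiTensorProduct.tprod R m) = ∏ i, f i (m i) := by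
  rw [prodForm, PiTensorProduct.lift.tprod]
  rfl

theorem prodForm_D {Q : Type*} [CommRing Q] [Algebra R Q] (f : Fin e → (M →ₗ[R] Q))
    (c : Fin e → (Fin e → M)) :
    prodForm f (D R M e c) = Matrix.det (Matrix.of fun j i => f i (c j i)) := by
  rw [D_apply, map_sum, Matrix.det_apply]
  refine Finset.sum_congr rfl fun σ _ => ?_
  have h1 : ∀ (u : ℤˣ) (t : TensorPower R e M), prodForm f (u • t) = u • prodForm f t := by
    intro u t
    rcases Int.units_eq_one_or u with rfl | rfl
    · simp
    · simp
  rw [h1, prodForm_tprod]
  rfl

/-- the criterion for torsion in tensor powers -/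
theorem torsion_ne_bot [IsDomain R] {Q : Type*} [CommRing Q] [Algebra R Q]
    (x : Fin e → R) (c : Fin e → (Fin e → M)) (h : ∑ j, x j • c j = 0) (l : Fin e) (hl : x l ≠ 0)
    (f : Fin e → (M →ₗ[R] Q)) (hf : Matrix.det (Matrix.of fun j i => f i (c j i)) ≠ 0) :
    Submodule.torsion R (TensorPower R e M) ≠ ⊥ := by
  intro hbot
  have h1 : D R M e c ∈ Submodule.torsion R (TensorPower R e M) := by
    rw [Submodule.mem_torsion_iff]
    exact ⟨⟨x l, mem_nonZeroDivisors_of_ne_zero hl⟩, smul_D_eq_zero x c h l⟩
  rw [hbot, Submodule.mem_bot] at h1
  rw [← prodForm_D, h1, map_zero] at hf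
  exact hf rfl

/-- exchange lemma over a local ring -/
theorem exchange [IsLocalRing R] {ι : Type*} [Fintype ι] [DecidableEq ι] (S : Set M) (h0 : (0 : M) ∈ S)
    (b : ι → M) (hb : Submodule.span R (Set.range b) = Submodule.span R S) :
    ∃ a : ι → M, (∀ i, a i ∈ S) ∧ Submodule.span R (Set.range a) = Submodule.span R S := by
  have key : ∀ t : Finset ι, ∃ a : ι → M, (∀ i ∈ t, a i ∈ S) ∧ (∀ i, a i ∈ Submodule.span R S) ∧
      Submodule.span R (Set.range a) = Submodule.span R S := by
    intro t
    induction t using Finset.induction_on with
    | empty =>
      exact ⟨b, by simp, fun i => hb ▸ Submodule.subset_span ⟨i, rfl⟩, hb⟩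
    | insert i t hi ih =>
      obtain ⟨a, ha, haS, hspan⟩ := ih
      -- the span of the other vectors
      set W := Submodule.span R (Set.range (Function.update a i 0)) with hW
      have hWj : ∀ j, j ≠ i → a j ∈ W := by
        intro j hj
        refine Submodule.subset_span ⟨j, ?_⟩
        rw [Function.update_of_ne hj]
      -- it is enough to find `s ∈ S` with `a i` in the span of `W` and `s`
      suffices h : ∃ s ∈ S, a i ∈ W ⊔ Submodule.span R {s} by
        obtain ⟨s, hs, hai⟩ := h
        refine ⟨Function.update a i s, ?_, ?_, ?_⟩
        · intro j hj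
          by_cases hji : j = i
          · subst hji
            rwa [Function.update_self]
          · rw [Function.update_of_ne hji]
            exact ha j (Finset.mem_of_mem_insert_of_ne hj hji)
        · intro j
          by_cases hji : j = i
          · subst hji
            rw [Function.update_self]
            exact Submodule.subset_span hs
          · rw [Function.update_of_ne hji]
            exact haS j
        · apply le_antisymm
          · rw [Submodule.span_le]
            rintro _ ⟨j, rfl⟩
            by_cases hji : j = i
            · subst hji
              rw [Function.update_self]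
              exact Submodule.subset_span hs
            · rw [Function.update_of_ne hji]
              exact haS j
          · rw [← hspan, Submodule.span_le]
            have hWle : W ≤ Submodule.span R (Set.range (Function.update a i s)) := by
              rw [hW, Submodule.span_le]
              rintro _ ⟨j, rfl⟩
              by_cases hji : j = i
              · subst hji
                rw [Function.update_self]
                exact Submodule.zero_mem _
              · rw [Function.update_of_ne hji]
                exact Submodule.subset_span ⟨j, by rw [Function.update_of_ne hji]⟩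
            rintro _ ⟨j, rfl⟩
            by_cases hji : j = i
            · subst hji
              refine (sup_le hWle ?_) hai
              rw [Submodule.span_singleton_le_iff_mem]
              exact Submodule.subset_span ⟨j, by rw [Function.update_self]⟩
            · exact hWle (hWj j hji)
      by_cases hS : ∀ s ∈ S, ∃ c ∈ IsLocalRing.maximalIdeal R, s - c • a i ∈ W
      · -- then `a i ∈ W`
        have h1 : ∀ z ∈ Submodule.span R S, ∃ c ∈ IsLocalRing.maximalIdeal R, z - c • a i ∈ W := by
          intro z hz
          induction hz using Submodule.span_induction with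
          | mem x hx => exact hS x hx
          | zero => exact ⟨0, Submodule.zero_mem _, by rw [zero_smul, sub_zero]; exact W.zero_mem⟩
          | add x y _ _ hx hy =>
            obtain ⟨c, hc, h1⟩ := hx
            obtain ⟨d, hd, h2⟩ := hy
            refine ⟨c + d, Ideal.add_mem _ hc hd, ?_⟩
            have := W.add_mem h1 h2
            convert this using 1
            rw [add_smul]
            abel
          | smul r x _ hx =>
            obtain ⟨c, hc, h1⟩ := hx
            refine ⟨r * c, Ideal.mul_mem_left _ _ hc, ?_⟩
            have := W.smul_mem r h1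
            convert this using 1
            rw [smul_sub, mul_smul]
        obtain ⟨c, hc, h1⟩ := h1 (a i) (haS i)
        have hu : IsUnit (1 - c) := by
          by_contra h
          have h2 : (1 : R) ∈ IsLocalRing.maximalIdeal R := by
            have h3 : (1 - c) ∈ IsLocalRing.maximalIdeal R := h
            have := Ideal.add_mem _ h3 hc
            rwa [sub_add_cancel] at this
          exact (IsLocalRing.mem_maximalIdeal _).1 h2 isUnit_one
        obtain ⟨u, hu⟩ := hu
        have h2 : a i ∈ W := by
          have h3 : a i = (↑u⁻¹ : R) • (a i - c • a i) := by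
            have : a i - c • a i = (↑u : R) • a i := by rw [hu, sub_smul, one_smul]
            rw [this, smul_smul, Units.inv_mul, one_smul]
          rw [h3]
          exact W.smul_mem _ h1
        exact ⟨0, h0, Submodule.mem_sup_left h2⟩
      · push Not at hS
        obtain ⟨s, hs, hs2⟩ := hS
        refine ⟨s, hs, ?_⟩
        have h1 : s ∈ W ⊔ Submodule.span R {a i} := by
          have h2 : s ∈ Submodule.span R (Set.range a) := by rw [hspan]; exact Submodule.subset_span hs
          refine (Submodule.span_le.2 ?_) h2
          rintro _ ⟨j, rfl⟩
          by_cases hji : j = i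
          · subst hji
            exact Submodule.mem_sup_right (Submodule.mem_span_singleton_self _)
          · exact Submodule.mem_sup_left (hWj j hji)
        obtain ⟨w, hw, z, hz, rfl⟩ := Submodule.mem_sup.1 h1
        obtain ⟨c, rfl⟩ := Submodule.mem_span_singleton.1 hz
        have hc : IsUnit c := by
          by_contra h
          exact hs2 c h (by rwa [add_sub_cancel_right])
        obtain ⟨u, rfl⟩ := hc
        have h3 : a i = (-(↑u⁻¹ : R)) • w + (↑u⁻¹ : R) • (w + (↑u : R) • a i) := by
          rw [smul_add, smul_smul, Units.inv_mul, one_smul, neg_smul]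
          abel
        have h4 : (-(↑u⁻¹ : R)) • w + (↑u⁻¹ : R) • (w + (↑u : R) • a i) ∈
            W ⊔ Submodule.span R {w + (↑u : R) • a i} :=
          Submodule.add_mem _ (Submodule.mem_sup_left (W.smul_mem _ hw))
            (Submodule.mem_sup_right (Submodule.smul_mem _ _ (Submodule.mem_span_singleton_self _)))
        rwa [← h3] at h4
  obtain ⟨a, ha, -, hspan⟩ := key Finset.univ
  exact ⟨a, fun i => ha i (Finset.mem_univ i), hspan⟩

end Pool.Agent.H16.TP
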