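import Mathlib

/-!
# Test exponents
-/

namespace Pool.Agent.H16

universe u

/-- `e` is a test exponent for `R`: the `e`-th tensor power of every finitely generated torsionfree
`R`-module that is not free has nontrivial torsion. -/
def IsTestExponent (R : Type u) [CommRing R] (e : ℕ) : Prop :=
  ∀ (M : Type u) [AddCommGroup M] [Module R M], Module.Finite R M → Submodule.torsion R M = ⊥ →
    ¬ Module.Free R M → Submodule.torsion R (TensorPower R e M) ≠ ⊥

end Pool.Agent.H16
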