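import Mathlib

/-!
# The smoothability defect of finite schemes is not bounded by the degree

For a finite subscheme `Γ ⊆ A^n` over an algebraically closed field, given by an ideal
`I ⊆ k[x_1, ..., x_n]` of finite colength, the smoothability defect `δ(Γ)` is the least value of
`deg Γ' - deg Γ` over all finite smoothable `Γ ⊆ Γ' ⊆ A^n`.

The main theorem `result` says: for every constant `C` there are `n` and `Γ ⊆ A^n` with
`δ(Γ) > C * deg Γ`.  The case `C = 1` answers the question whether `δ(Γ) > deg Γ` is possible.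

Idea.  If `B` is a smoothable algebra of dimension `D`, then for all `b_i ∈ B` and all linear
functionals `φ_l` the numbers `φ_l (b_i b_j)` form a tensor in the closure of the tensors
`∑_{s ≤ D} α_s ⊗ α_s ⊗ β_s`.  For `i, j, l ≤ n` these depend on `2 n D` parameters only, while the
space of all such tensors has dimension `n * n (n + 1) / 2`.  So if `4 D < n (n + 1)` there is a
nonzero polynomial `P` vanishing on all of them.  Choose a tensor `q` with `P q ≠ 0` and let `I` be
the ideal of all `f` with `φ_l (g f) = 0` for all `g` and `l`, where `φ_l` reads off the quadratic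
part of a polynomial against `q_l`.  Then `k[x]/I` has dimension at most `2 n + 1`, and no smoothable
scheme of degree at most `D` contains it.
-/

open MvPolynomial TensorProduct

namespace Pool.Agent.H16.UnboundedDefectVariant

universe u

/-- The degree of the closed subscheme of `A^N` defined by `I`: the `k`-dimension of
`k[x_1, ..., x_N] / I`. -/
noncomputable def deg {k : Type u} [Field k] {N : ℕ} (I : Ideal (MvPolynomial (Fin N) k)) : ℕ :=
  Module.finrank k (MvPolynomial (Fin N) k ⧸ I)

/-- The closed subscheme `Γ` of `A^N` defined by the ideal `I` is smoothable: it is the special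
fibre of a finite flat family of closed subschemes of `A^N`, over an irreducible base, whose general
fibre is reduced.  Explicitly: there are a local integral domain `R` (the local ring of the base at
the special point) which is a `k`-algebra with residue field `k` (given by `π : R → k`), and
an ideal `J` of `R[x_1, ..., x_N]` such that `R[x]/J` is finite and flat over `R`, the special fibre
`J · k[x]` is `I`, and the geometric generic fibre, i.e. the base change of `R[x]/J` to an
algebraic closure of the fraction field of `R`, is reduced.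

No restriction on the dimension of `R` is made. Taking for `R` a discrete valuation ring gives
one-dimensional bases; taking for `R` the local ring, at the point `[Γ]`, of the closure of the
reduced locus in the Hilbert scheme shows that every point in the closure of the reduced locus
qualifies; conversely such a family is a map from `Spec R` to the Hilbert scheme sending the
generic point into the reduced locus and the closed point to `[Γ]`, so `[Γ]` is in the closure. -/
def IsSmoothable {k : Type u} [Field k] {N : ℕ} (I : Ideal (MvPolynomial (Fin N) k)) : Prop :=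
  ∃ (R : Type u) (_ : CommRing R) (_ : IsDomain R) (_ : IsLocalRing R) (_ : Algebra k R)
    (π : R →ₐ[k] k) (J : Ideal (MvPolynomial (Fin N) R)),
    Module.Finite R (MvPolynomial (Fin N) R ⧸ J) ∧
    Module.Flat R (MvPolynomial (Fin N) R ⧸ J) ∧
    J.map (MvPolynomial.map (π : R →+* k)) = I ∧
    IsReduced (AlgebraicClosure (FractionRing R) ⊗[R] (MvPolynomial (Fin N) R ⧸ J))

/-- The smoothability defect `δ(Γ)` of the finite subscheme `Γ ⊆ A^N` defined by `I`: the least
`e` such that some smoothable `Γ' ⊇ Γ` in `A^N` (an ideal `I' ⊆ I`) has `deg Γ' = deg Γ + e`. -/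
noncomputable def smoothabilityDefect {k : Type u} [Field k] {N : ℕ}
    (I : Ideal (MvPolynomial (Fin N) k)) : ℕ :=
  sInf {e : ℕ | ∃ I' : Ideal (MvPolynomial (Fin N) k),
    I' ≤ I ∧ IsSmoothable I' ∧ deg I' = deg I + e}

/-- A finite reduced algebra over an algebraically closed field: every functional evaluated on a
product is a sum of `finrank` many rank one terms. -/
theorem exists_diag {E C : Type u} [Field E] [IsAlgClosed E] [CommRing C] [Algebra E C]
    [Module.Finite E C] [IsReduced C] :
    ∃ (χ : Fin (Module.finrank E C) → (C →ₐ[E] E)),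
      ∀ Φ : C →ₗ[E] E, ∃ β : Fin (Module.finrank E C) → E, ∀ c, Φ c = ∑ s, β s * χ s c := by
  classical
  haveI : IsArtinianRing C := IsArtinianRing.of_finite E C
  haveI : Fintype (MaximalSpectrum C) := Fintype.ofFinite _
  -- the characters
  have hbij : ∀ I : MaximalSpectrum C, Function.Bijective (algebraMap E (C ⧸ I.asIdeal)) := by
    intro I
    haveI := I.isMaximal
    letI := Ideal.Quotient.field I.asIdeal
    exact IsAlgClosed.algebraMap_bijective_of_isIntegral
  let e : ∀ I : MaximalSpectrum C, (C ⧸ I.asIdeal) ≃ₐ[E] E := fun I =>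
    (AlgEquiv.ofBijective (Algebra.ofId E (C ⧸ I.asIdeal)) (hbij I)).symm
  let f : C ≃ₗ[E] (MaximalSpectrum C → E) :=
    ((IsArtinianRing.equivPi C).toLinearEquiv.restrictScalars E).trans
      (LinearEquiv.piCongrRight (fun I => (e I).toLinearEquiv))
  have hcard : Fintype.card (MaximalSpectrum C) = Module.finrank E C := by
    rw [f.finrank_eq, Module.finrank_fintype_fun_eq_card]
  let g : Fin (Module.finrank E C) ≃ MaximalSpectrum C :=
    (finCongr hcard.symm).trans (Fintype.equivFin _).symm
  refine ⟨fun s => ((e (g s) : (C ⧸ (g s).asIdeal) →ₐ[E] E)).comp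
    (Ideal.Quotient.mkₐ E (g s).asIdeal), fun Φ => ?_⟩
  refine ⟨fun s => Φ (f.symm (Pi.single (g s) 1)), fun c => ?_⟩
  have h1 : c = f.symm (f c) := (f.symm_apply_apply c).symm
  have h2 : f c = ∑ I, (f c I) • (Pi.single I (1 : E) : MaximalSpectrum C → E) := by
    ext J
    simp [Finset.sum_apply, Pi.single_apply]
  have h3 : Φ c = ∑ I, f c I * Φ (f.symm (Pi.single I 1)) := by
    conv_lhs => rw [h1, h2]
    simp [map_sum]
  rw [h3, ← g.sum_comp]
  refine Finset.sum_congr rfl fun s _ => ?_
  rw [mul_comm]
  rfl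

/-- index set of the coordinates of `Sym² (k^n) ⊗ k^n` -/
abbrev Idx (n : ℕ) : Type := {p : Fin n × Fin n // p.1 ≤ p.2} × Fin n

theorem card_Idx (n : ℕ) : Fintype.card (Idx n) = (n + 1).choose 2 * n := by
  classical
  rw [Fintype.card_prod, ← Fintype.card_congr (Sym2.sortEquiv (α := Fin n)), Sym2.card]
  simp

/-- the rank `≤ D` tensor -/
def tens {n D : ℕ} {E : Type u} [CommRing E] (α β : Fin D → Fin n → E) (t : Idx n) : E :=
  ∑ s, α s t.1.1.1 * α s t.1.1.2 * β s t.2

theorem exists_poly (k : Type u) [Field k] {n D : ℕ} (h : 4 * D < n * (n + 1)) :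
    ∃ P : MvPolynomial (Idx n) k, P ≠ 0 ∧
      ∀ (E : Type u) [CommRing E] [Algebra k E] (α β : Fin D → Fin n → E),
        aeval (tens α β) P = 0 := by
  classical
  let σ := (Fin D × Fin n) ⊕ (Fin D × Fin n)
  let F : Idx n → MvPolynomial σ k :=
    tens (fun s i => X (Sum.inl (s, i))) (fun s i => X (Sum.inr (s, i)))
  have hnot : ¬ AlgebraicIndependent k F := by
    intro hF
    have h1 := hF.lift_cardinalMk_le_trdeg
    rw [MvPolynomial.trdeg_of_isDomain] at h1
    simp only [Cardinal.mk_fintype, Cardinal.lift_natCast, card_Idx] at h1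
    have h2 : ((n + 1).choose 2 * n : ℕ) ≤ Fintype.card σ := by exact_mod_cast h1
    have h3 : Fintype.card σ = 2 * (D * n) := by
      simp [σ]; ring
    rw [h3] at h2
    have h4 : (n + 1).choose 2 * 2 = (n + 1) * n := by
      have := Nat.choose_two_right (n + 1)
      have h5 : 2 ∣ (n + 1) * n := by
        rcases Nat.even_or_odd n with h | h
        · exact (even_iff_two_dvd.mp (h.mul_left _))
        · exact (even_iff_two_dvd.mp ((h.add_one).mul_right _))
      rw [this]
      simpa using Nat.div_mul_cancel h5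
    have hn : 0 < n := by
      rcases Nat.eq_zero_or_pos n with h0 | h0
      · subst h0; simp at h
      · exact h0
    have h6 : (n + 1).choose 2 * 2 * n ≤ 4 * D * n := by nlinarith
    rw [h4] at h6
    have h7 : (n + 1) * n ≤ 4 * D := Nat.le_of_mul_le_mul_right h6 hn
    nlinarith
  rw [algebraicIndependent_iff] at hnot
  push Not at hnot
  obtain ⟨P, hP, hP0⟩ := hnot
  refine ⟨P, hP0, ?_⟩
  intro E _ _ α β
  let ev : MvPolynomial σ k →ₐ[k] E :=
    aeval (Sum.elim (fun p => α p.1 p.2) (fun p => β p.1 p.2))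
  have h1 : ev (aeval F P) = aeval (fun t => ev (F t)) P := by
    rw [← AlgHom.comp_apply]
    congr 1
    ext t
    simp
  rw [hP, map_zero] at h1
  rw [h1]
  congr 2
  funext t
  simp [F, tens, ev]

/-- the tensor attached to elements and functionals -/
def algTens {n : ℕ} {R A : Type u} [CommRing R] [CommRing A] [Algebra R A]
    (a : Fin n → A) (φ : Fin n → (A →ₗ[R] R)) (t : Idx n) : R :=
  φ t.2 (a t.1.1.1 * a t.1.1.2)

theorem vanish_field {E C : Type u} [Field E] [IsAlgClosed E] [CommRing C] [Algebra E C]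
    [Module.Finite E C] [IsReduced C] {n D : ℕ} (hD : Module.finrank E C ≤ D)
    (a : Fin n → C) (φ : Fin n → (C →ₗ[E] E)) :
    ∃ (α β : Fin D → Fin n → E), algTens a φ = tens α β := by
  classical
  obtain ⟨χ, hχ⟩ := exists_diag (E := E) (C := C)
  choose β hβ using fun l => hχ (φ l)
  refine ⟨fun s i => if h : s.1 < Module.finrank E C then χ ⟨s.1, h⟩ (a i) else 0,
    fun s l => if h : s.1 < Module.finrank E C then β l ⟨s.1, h⟩ else 0, ?_⟩
  funext t
  simp only [algTens, tens, hβ]
  rw [← Finset.sum_subset (Finset.subset_univ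
    (Finset.univ.map (Fin.castLEEmb hD))) ]
  · rw [Finset.sum_map]
    refine Finset.sum_congr rfl fun s _ => ?_
    simp
    ring
  · intro s _ hs
    have : ¬ s.1 < Module.finrank E C := by
      intro h
      apply hs
      simp only [Finset.mem_map, Finset.mem_univ, true_and]
      exact ⟨⟨s.1, h⟩, rfl⟩
    simp [this]

theorem vanish_domain {k R A : Type u} [Field k] [CommRing R] [IsDomain R] [Algebra k R]
    [CommRing A] [Algebra R A] [Module.Finite R A] [Module.Free R A]
    [IsReduced (AlgebraicClosure (FractionRing R) ⊗[R] A)] {n D : ℕ}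
    (hD : Module.finrank R A ≤ D) (a : Fin n → A) (φ : Fin n → (A →ₗ[R] R))
    (P : MvPolynomial (Idx n) k)
    (hP : ∀ (E : Type u) [CommRing E] [Algebra k E] (α β : Fin D → Fin n → E),
        aeval (tens α β) P = 0) :
    aeval (algTens a φ) P = 0 := by
  let E := AlgebraicClosure (FractionRing R)
  have hinj : Function.Injective (algebraMap R E) := by
    rw [IsScalarTower.algebraMap_eq R (FractionRing R) E]
    exact (FaithfulSMul.algebraMap_injective (FractionRing R) E).comp
      (IsFractionRing.injective R (FractionRing R))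
  have hfr : Module.finrank E (E ⊗[R] A) = Module.finrank R A :=
    Module.finrank_baseChange
  obtain ⟨α, β, h⟩ := vanish_field (E := E) (C := E ⊗[R] A) (D := D) (by rw [hfr]; exact hD)
    (fun i => (1 : E) ⊗ₜ[R] a i) (fun l => (φ l).baseChange E |> fun f =>
      (TensorProduct.AlgebraTensorModule.rid R E E).toLinearMap ∘ₗ f)
  have h2 : (fun t => algebraMap R E (algTens a φ t)) = tens α β := by
    rw [← h]
    funext t
    simp [algTens, Algebra.TensorProduct.tmul_mul_tmul, LinearMap.baseChange_tmul,
      Algebra.algebraMap_eq_smul_one]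
  apply hinj
  rw [map_zero]
  have h3 := hP E α β
  rw [← h2] at h3
  rw [← h3]
  have h4 : algebraMap R E (aeval (algTens a φ) P) =
      (IsScalarTower.toAlgHom k R E) (aeval (algTens a φ) P) := rfl
  rw [h4, ← AlgHom.comp_apply]
  congr 1
  ext t
  simp

theorem bc_ideal {σ : Type*} {R E : Type u} [CommRing R] [CommRing E] [Algebra R E]
    (J : Ideal (MvPolynomial σ R)) :
    J.map (MvPolynomial.map (algebraMap R E)) =
    Ideal.map ((MvPolynomial.algebraTensorAlgEquiv R E :
        E ⊗[R] MvPolynomial σ R ≃ₐ[E] MvPolynomial σ E) :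
        E ⊗[R] MvPolynomial σ R →+* MvPolynomial σ E)
        (Ideal.map (Algebra.TensorProduct.includeRight :
          MvPolynomial σ R →ₐ[R] E ⊗[R] MvPolynomial σ R) J) := by
  apply le_antisymm
  · rw [Ideal.map_le_iff_le_comap]
    intro x hx
    rw [Ideal.mem_comap]
    have h1 := Ideal.mem_map_of_mem (Algebra.TensorProduct.includeRight :
          MvPolynomial σ R →ₐ[R] E ⊗[R] MvPolynomial σ R) hx
    have h2 := Ideal.mem_map_of_mem ((MvPolynomial.algebraTensorAlgEquiv R E :
        E ⊗[R] MvPolynomial σ R ≃ₐ[E] MvPolynomial σ E) :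
        E ⊗[R] MvPolynomial σ R →+* MvPolynomial σ E) h1
    simpa using h2
  · rw [Ideal.map_le_iff_le_comap, Ideal.map_le_iff_le_comap]
    intro x hx
    rw [Ideal.mem_comap, Ideal.mem_comap]
    have h1 := Ideal.mem_map_of_mem (MvPolynomial.map (algebraMap R E)) hx
    simpa using h1

/-- base change of a quotient of a polynomial ring -/
noncomputable def bcEquiv {σ : Type*} {R E : Type u} [CommRing R] [CommRing E] [Algebra R E]
    (J : Ideal (MvPolynomial σ R)) :
    (E ⊗[R] (MvPolynomial σ R ⧸ J)) ≃ₐ[E]
      (MvPolynomial σ E ⧸ J.map (MvPolynomial.map (algebraMap R E))) :=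
  (Algebra.TensorProduct.tensorQuotientEquiv (R := R) E (MvPolynomial σ R) E J).trans
    (Ideal.quotientEquivAlg _ _ (MvPolynomial.algebraTensorAlgEquiv R E) (bc_ideal J))

theorem bcEquiv_tmul {σ : Type*} {R E : Type u} [CommRing R] [CommRing E] [Algebra R E]
    (J : Ideal (MvPolynomial σ R)) (e : E) (f : MvPolynomial σ R) :
    bcEquiv J (e ⊗ₜ[R] (Ideal.Quotient.mk J f)) =
      Ideal.Quotient.mk _ (e • MvPolynomial.map (algebraMap R E) f) := by
  rw [bcEquiv, AlgEquiv.trans_apply]
  rw [show Algebra.TensorProduct.tensorQuotientEquiv (R := R) E (MvPolynomial σ R) E J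
    (e ⊗ₜ[R] (Ideal.Quotient.mk J f)) = Ideal.Quotient.mk _ (e ⊗ₜ[R] f) from rfl]
  rw [Ideal.quotientEquivAlg_mk]
  simp

theorem smoothable_vanish {k : Type u} [Field k] {n N D : ℕ}
    (I : Ideal (MvPolynomial (Fin N) k)) (hs : IsSmoothable I)
    (hD : Module.finrank k (MvPolynomial (Fin N) k ⧸ I) ≤ D)
    (x : Fin n → MvPolynomial (Fin N) k ⧸ I)
    (φ : Fin n → ((MvPolynomial (Fin N) k ⧸ I) →ₗ[k] k))
    (P : MvPolynomial (Idx n) k)
    (hP : ∀ (E : Type u) [CommRing E] [Algebra k E] (α β : Fin D → Fin n → E),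
        aeval (tens α β) P = 0) :
    aeval (algTens x φ) P = 0 := by
  obtain ⟨R, _, _, _, _, π, J, hfin, hflat, hJ, hred⟩ := hs
  have hπ : Function.Surjective π := fun c => ⟨algebraMap k R c, by simp⟩
  subst hJ
  letI : Algebra R k := (π : R →+* k).toAlgebra
  have : IsScalarTower k R k := IsScalarTower.of_algebraMap_eq (fun x => by
    change x = π (algebraMap k R x)
    simp)
  let A := MvPolynomial (Fin N) R ⧸ J
  have : Module.Finite R A := hfin
  have : Module.Flat R A := hflat
  have : Module.Free R A := Module.free_of_flat_of_isLocalRing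
  have : IsReduced (AlgebraicClosure (FractionRing R) ⊗[R] A) := hred
  let e : (k ⊗[R] A) ≃ₐ[k] (MvPolynomial (Fin N) k ⧸ J.map (MvPolynomial.map (π : R →+* k))) :=
    bcEquiv (σ := Fin N) (R := R) (E := k) J
  have hfr : Module.finrank R A =
      Module.finrank k (MvPolynomial (Fin N) k ⧸ J.map (MvPolynomial.map (π : R →+* k))) := by
    rw [← e.toLinearEquiv.finrank_eq, Module.finrank_baseChange]
  have hlift : ∀ y : (MvPolynomial (Fin N) k ⧸ J.map (MvPolynomial.map (π : R →+* k))),
      ∃ a : A, e (1 ⊗ₜ a) = y := by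
    intro y
    obtain ⟨f, rfl⟩ := Ideal.Quotient.mk_surjective y
    obtain ⟨F, rfl⟩ := MvPolynomial.map_surjective (π : R →+* k) hπ f
    refine ⟨Ideal.Quotient.mk J F, ?_⟩
    change bcEquiv (E := k) J _ = _
    rw [bcEquiv_tmul, one_smul]
    rfl
  choose a ha using fun i => hlift (x i)
  have hφ : ∀ l, ∃ ψ : A →ₗ[R] R, ∀ b : A, π (ψ b) = φ l (e (1 ⊗ₜ b)) := by
    intro l
    let g : A →ₗ[R] k :=
      { toFun := fun b => φ l (e (1 ⊗ₜ b))
        map_add' := by intro b c; simp [TensorProduct.tmul_add]
        map_smul' := by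
          intro r b
          have : (1 : k) ⊗ₜ[R] (r • b) = (algebraMap R k r) • ((1 : k) ⊗ₜ[R] b) := by
            rw [TensorProduct.tmul_smul, algebraMap_smul]
          rw [this, map_smul, map_smul]
          simp [Algebra.smul_def] }
    obtain ⟨h, hh⟩ := Module.projective_lifting_property (Algebra.linearMap R k) g
      (by intro c; exact hπ c)
    refine ⟨h, fun b => ?_⟩
    have := LinearMap.congr_fun hh b
    exact this
  choose ψ hψ using hφ
  have h1 : aeval (algTens a ψ) P = 0 :=
    vanish_domain (k := k) (R := R) (A := A) (hfr.trans_le hD) a ψ P hP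
  have h2 : (fun t => π (algTens a ψ t)) = algTens x φ := by
    funext t
    simp only [algTens, hψ]
    rw [← ha, ← ha, ← map_mul, Algebra.TensorProduct.tmul_mul_tmul, one_mul]
  rw [← h2]
  have h3 : π (aeval (algTens a ψ) P) = aeval (fun t => π (algTens a ψ t)) P := by
    rw [← AlgHom.comp_apply]
    congr 1
    ext t
    simp
  rw [← h3, h1, map_zero]

section apolar

variable {k : Type u} [Field k] {n : ℕ}

/-- exponent of `x_i x_j` -/
noncomputable def ex (i j : Fin n) : Fin n →₀ ℕ := Finsupp.single i 1 + Finsupp.single j 1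

/-- the functional `φ_l` attached to `q` -/
noncomputable def fn (q : Idx n → k) (l : Fin n) : MvPolynomial (Fin n) k →ₗ[k] k :=
  ∑ p : {p : Fin n × Fin n // p.1 ≤ p.2}, q (p, l) • MvPolynomial.lcoeff k (ex p.1.1 p.1.2)

theorem fn_apply (q : Idx n → k) (l : Fin n) (f : MvPolynomial (Fin n) k) :
    fn q l f = ∑ p : {p : Fin n × Fin n // p.1 ≤ p.2}, q (p, l) * coeff (ex p.1.1 p.1.2) f := by
  simp [fn]

theorem ex_inj {i j i' j' : Fin n} (h : i ≤ j) (h' : i' ≤ j') (he : ex i j = ex i' j') :
    i = i' ∧ j = j' := by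
  rw [ex, ex, Finsupp.single_add_single_eq_single_add_single one_ne_zero one_ne_zero] at he
  rcases he with ⟨h1, h2⟩ | ⟨_, h1, h2⟩ | ⟨h1, h2, h3⟩
  · exact ⟨h1, h2⟩
  · subst h1; subst h2
    exact ⟨le_antisymm h h', le_antisymm h' h⟩
  · exact absurd h1 (by norm_num)

theorem fn_X_mul_X (q : Idx n → k) (t : Idx n) :
    fn q t.2 (X t.1.1.1 * X t.1.1.2) = q t := by
  classical
  rw [fn_apply]
  have hX : (X t.1.1.1 * X t.1.1.2 : MvPolynomial (Fin n) k) =
      monomial (ex t.1.1.1 t.1.1.2) 1 := by
    rw [ex, X, X, monomial_mul, one_mul]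
  rw [hX, Finset.sum_eq_single t.1]
  · rw [coeff_monomial, if_pos rfl, mul_one]
  · intro p _ hp
    rw [coeff_monomial, if_neg, mul_zero]
    intro he
    apply hp
    obtain ⟨h1, h2⟩ := ex_inj t.1.2 p.2 he
    exact Subtype.ext (Prod.ext h1.symm h2.symm)
  · intro h
    exact absurd (Finset.mem_univ _) h

/-- the apolar ideal of `q` -/
noncomputable def apolar (q : Idx n → k) : Ideal (MvPolynomial (Fin n) k) where
  carrier := {f | ∀ l g, fn q l (g * f) = 0}
  add_mem' := by
    intro a b ha hb l g
    rw [mul_add, map_add, ha l g, hb l g, add_zero]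
  zero_mem' := by
    intro l g
    simp
  smul_mem' := by
    intro c f hf l g
    rw [smul_eq_mul, ← mul_assoc]
    exact hf l (g * c)

theorem mem_apolar (q : Idx n → k) (f : MvPolynomial (Fin n) k) :
    f ∈ apolar q ↔ ∀ l g, fn q l (g * f) = 0 := Iff.rfl

theorem coeff_ex_mul (a b : Fin n) (g f : MvPolynomial (Fin n) k) (h0 : coeff 0 f = 0)
    (h1 : ∀ i, coeff (Finsupp.single i 1) f = 0) :
    coeff (ex a b) (g * f) = coeff 0 g * coeff (ex a b) f := by
  classical
  rw [coeff_mul, Finset.sum_eq_single (0, ex a b)]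
  · rintro ⟨x, y⟩ hxy hne
    rw [Finset.HasAntidiagonal.mem_antidiagonal] at hxy
    simp only at hxy ⊢
    have hdeg : x.degree + y.degree = 2 := by
      have := congrArg Finsupp.degree hxy
      simpa [ex, map_add] using this
    have hx : x ≠ 0 := by
      rintro rfl
      apply hne
      rw [zero_add] at hxy
      rw [hxy]
    have hx1 : 1 ≤ x.degree := by
      rw [Nat.one_le_iff_ne_zero, ne_eq, Finsupp.degree_eq_zero_iff]
      exact hx
    have hy : y.degree ≤ 1 := by omega
    have : coeff y f = 0 := by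
      rcases Nat.lt_or_ge y.degree 1 with h | h
      · have : y = 0 := by
          rw [← Finsupp.degree_eq_zero_iff]; omega
        rw [this]; exact h0
      · have hy1 : y.degree = 1 := le_antisymm hy h
        have hy0 : y ≠ 0 := by
          rintro rfl
          simp at hy1
        obtain ⟨i, hi⟩ := Finsupp.ne_iff.mp hy0
        have hle : Finsupp.single i 1 ≤ y := by
          rw [Finsupp.single_le_iff]
          simp at hi
          omega
        obtain ⟨z, hz⟩ := exists_add_of_le hle
        have hz0 : z = 0 := by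
          rw [← Finsupp.degree_eq_zero_iff]
          have := congrArg Finsupp.degree hz
          rw [map_add, hy1, Finsupp.degree_single] at this
          omega
        rw [hz, hz0, add_zero]
        exact h1 i
    rw [this, mul_zero]
  · intro h
    exfalso
    apply h
    simp

/-- the linear map whose kernel lies in the apolar ideal -/
noncomputable def Lmap (q : Idx n → k) :
    MvPolynomial (Fin n) k →ₗ[k] (k × (Fin n → k) × (Fin n → k)) :=
  (MvPolynomial.lcoeff k 0).prod
    ((LinearMap.pi fun i => MvPolynomial.lcoeff k (Finsupp.single i 1)).prod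
      (LinearMap.pi fun l => fn q l))

theorem ker_Lmap_le (q : Idx n → k) :
    LinearMap.ker (Lmap q) ≤ (apolar q).restrictScalars k := by
  intro f hf
  rw [LinearMap.mem_ker] at hf
  have h0 : coeff 0 f = 0 := congrArg Prod.fst hf
  have h1 : (fun i => coeff (Finsupp.single i 1) f) = 0 :=
    congrArg (fun z => z.2.1) hf
  have h2 : (fun l => fn q l f) = 0 := congrArg (fun z => z.2.2) hf
  have h1' : ∀ i, coeff (Finsupp.single i 1) f = 0 := fun i => congrFun h1 i
  have h2' : ∀ l, fn q l f = 0 := fun l => congrFun h2 l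
  rw [Submodule.restrictScalars_mem, mem_apolar]
  intro l g
  rw [fn_apply]
  have : ∀ p : {p : Fin n × Fin n // p.1 ≤ p.2},
      q (p, l) * coeff (ex p.1.1 p.1.2) (g * f) =
      coeff 0 g * (q (p, l) * coeff (ex p.1.1 p.1.2) f) := by
    intro p
    rw [coeff_ex_mul _ _ _ _ h0 h1']
    ring
  simp_rw [this]
  rw [← Finset.mul_sum, ← fn_apply, h2', mul_zero]

theorem finite_apolar (q : Idx n → k) :
    Module.Finite k (MvPolynomial (Fin n) k ⧸ apolar q) ∧
    Module.finrank k (MvPolynomial (Fin n) k ⧸ apolar q) ≤ 2 * n + 1 := by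
  let W := k × (Fin n → k) × (Fin n → k)
  let Q := MvPolynomial (Fin n) k ⧸ LinearMap.ker (Lmap q)
  have e : Q ≃ₗ[k] LinearMap.range (Lmap q) := (Lmap q).quotKerEquivRange
  have hQ : Module.Finite k Q := Module.Finite.equiv e.symm
  have hQ2 : Module.finrank k Q ≤ 2 * n + 1 := by
    rw [e.finrank_eq]
    refine (Submodule.finrank_le _).trans ?_
    simp
    omega
  let s : Q →ₗ[k] (MvPolynomial (Fin n) k ⧸ apolar q) :=
    Submodule.liftQ _ ((Ideal.Quotient.mkₐ k (apolar q)).toLinearMap) (by
      intro f hf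
      have := ker_Lmap_le q hf
      rw [LinearMap.mem_ker]
      exact Ideal.Quotient.eq_zero_iff_mem.mpr this)
  have hs : Function.Surjective s := by
    intro y
    obtain ⟨f, rfl⟩ := Ideal.Quotient.mk_surjective y
    exact ⟨Submodule.Quotient.mk f, rfl⟩
  exact ⟨Module.Finite.of_surjective s hs, (LinearMap.finrank_le_finrank_of_surjective hs).trans hQ2⟩

theorem X_pow_mem_apolar (q : Idx n → k) (i : Fin n) :
    (X i ^ 3 : MvPolynomial (Fin n) k) ∈ apolar q := by
  classical
  rw [mem_apolar]
  intro l g
  rw [fn_apply]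
  apply Finset.sum_eq_zero
  intro p _
  rw [X_pow_eq_monomial, coeff_mul_monomial', if_neg, mul_zero]
  intro hle
  have := hle i
  simp only [Finsupp.single_eq_same, ex, Finsupp.add_apply] at this
  have h1 : ∀ a : Fin n, (Finsupp.single a 1 : Fin n →₀ ℕ) i ≤ 1 := by
    intro a
    rw [Finsupp.single_apply]
    split_ifs <;> omega
  have := h1 p.1.1
  have := h1 p.1.2
  omega

end apolar

section grid

/-- the ideal of the grid -/
noncomputable def gridIdeal {Ω : Type u} [CommRing Ω] (N : ℕ) (T : Finset Ω) :
    Ideal (MvPolynomial (Fin N) Ω) :=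
  Ideal.span (Set.range fun i : Fin N => ∏ r ∈ T, (X i - C r))

/-- evaluation on the grid -/
noncomputable def gridEval {Ω : Type u} [CommRing Ω] (N : ℕ) (T : Finset Ω) :
    MvPolynomial (Fin N) Ω →ₐ[Ω] ((Fin N → T) → Ω) :=
  AlgHom.pi fun x => aeval (fun i => (x i : Ω))

theorem gridEval_apply {Ω : Type u} [CommRing Ω] (N : ℕ) (T : Finset Ω)
    (f : MvPolynomial (Fin N) Ω) (x : Fin N → T) :
    gridEval N T f x = eval (fun i => (x i : Ω)) f := by
  change aeval (fun i => (x i : Ω)) f = _
  rw [MvPolynomial.aeval_eq_eval]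

theorem ker_gridEval {Ω : Type u} [CommRing Ω] [IsDomain Ω] (N : ℕ) (T : Finset Ω)
    (hT : T.Nonempty) : RingHom.ker (gridEval N T) = gridIdeal N T := by
  classical
  apply le_antisymm
  · intro f hf
    rw [RingHom.mem_ker] at hf
    obtain ⟨h, _, hh⟩ := combinatorial_nullstellensatz_exists_linearCombination
      (fun _ : Fin N => T) (fun _ => hT) f (by
        intro x hx
        have := congrFun hf (fun i => ⟨x i, hx i⟩)
        rw [gridEval_apply] at this
        exact this)
    rw [hh, Finsupp.linearCombination_apply, Finsupp.sum]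
    refine Ideal.sum_mem _ fun i _ => ?_
    rw [smul_eq_mul]
    exact Ideal.mul_mem_left _ _ (Ideal.subset_span ⟨i, rfl⟩)
  · rw [gridIdeal, Ideal.span_le]
    rintro _ ⟨i, rfl⟩
    rw [SetLike.mem_coe, RingHom.mem_ker]
    funext x
    rw [gridEval_apply, map_prod, Pi.zero_apply]
    apply Finset.prod_eq_zero (x i).2
    simp

theorem map_gridIdeal {Ω Ω' : Type u} [CommRing Ω] [CommRing Ω'] (g : Ω →+* Ω')
    (hg : Function.Injective g) (N : ℕ) (T : Finset Ω) [DecidableEq Ω'] :
    (gridIdeal N T).map (MvPolynomial.map g) = gridIdeal N (T.image g) := by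
  rw [gridIdeal, gridIdeal, Ideal.map_span, ← Set.range_comp]
  congr 2
  funext i
  rw [Function.comp_apply, map_prod, Finset.prod_image (fun _ _ _ _ h => hg h)]
  simp

theorem isReduced_quot_grid {Ω : Type u} [CommRing Ω] [IsDomain Ω] (N : ℕ) (T : Finset Ω)
    (hT : T.Nonempty) : IsReduced (MvPolynomial (Fin N) Ω ⧸ gridIdeal N T) := by
  rw [← ker_gridEval N T hT]
  exact isReduced_of_injective (Ideal.kerLiftAlg (gridEval N T))
    (Ideal.kerLiftAlg_injective (gridEval N T))

theorem finite_flat_quot_grid {Ω : Type u} [CommRing Ω] [IsDomain Ω] [IsPrincipalIdealRing Ω]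
    (N : ℕ) (T : Finset Ω) (hT : T.Nonempty) :
    Module.Finite Ω (MvPolynomial (Fin N) Ω ⧸ gridIdeal N T) ∧
    Module.Flat Ω (MvPolynomial (Fin N) Ω ⧸ gridIdeal N T) := by
  rw [← ker_gridEval N T hT]
  let f : (MvPolynomial (Fin N) Ω ⧸ RingHom.ker (gridEval N T)) →ₗ[Ω] ((Fin N → T) → Ω) :=
    (Ideal.kerLiftAlg (gridEval N T)).toLinearMap
  have hf : Function.Injective f := Ideal.kerLiftAlg_injective (gridEval N T)
  have h1 : Module.Finite Ω (MvPolynomial (Fin N) Ω ⧸ RingHom.ker (gridEval N T)) :=
    Module.Finite.of_injective f hf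
  have h2 : Module.IsTorsionFree Ω (MvPolynomial (Fin N) Ω ⧸ RingHom.ker (gridEval N T)) :=
    hf.moduleIsTorsionFree f (fun _ _ => map_smul f _ _)
  have h3 : Module.Free Ω (MvPolynomial (Fin N) Ω ⧸ RingHom.ker (gridEval N T)) :=
    inferInstance
  exact ⟨h1, inferInstance⟩

end grid

theorem smoothable_cubes (k : Type u) [Field k] (N : ℕ) :
    IsSmoothable (Ideal.span (Set.range fun i : Fin N => (X i ^ 3 : MvPolynomial (Fin N) k))) := by
  classical
  let R := PowerSeries k
  let T : Finset R := {0, PowerSeries.X, PowerSeries.X ^ 2}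
  have hT : T.Nonempty := ⟨0, by simp [T]⟩
  have hX0 : (PowerSeries.X : R) ≠ 0 := PowerSeries.X_ne_zero
  have hX1 : (PowerSeries.X : R) ≠ PowerSeries.X ^ 2 := by
    intro h
    have h2 : (PowerSeries.X : R) * (1 - PowerSeries.X) = 0 := by
      linear_combination h
    rcases mul_eq_zero.mp h2 with h3 | h3
    · exact hX0 h3
    · have := congrArg (PowerSeries.constantCoeff (R := k)) h3
      simp at this
  let π : R →ₐ[k] k :=
    { PowerSeries.constantCoeff (R := k) with
      commutes' := by
        intro c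
        exact PowerSeries.constantCoeff_C c }
  refine ⟨R, inferInstance, inferInstance, inferInstance, inferInstance, π, gridIdeal N T,
    (finite_flat_quot_grid N T hT).1, (finite_flat_quot_grid N T hT).2, ?_, ?_⟩
  · rw [gridIdeal, Ideal.map_span, ← Set.range_comp]
    congr 2
    funext i
    rw [Function.comp_apply, map_prod]
    have h1 : (0 : R) ∉ ({PowerSeries.X, PowerSeries.X ^ 2} : Finset R) := by
      have h0 : (0 : R) ≠ PowerSeries.X ^ 2 := (pow_ne_zero 2 hX0).symm
      simp [hX0.symm, h0]
    have h2 : (PowerSeries.X : R) ∉ ({PowerSeries.X ^ 2} : Finset R) := by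
      simpa using hX1
    have h3 : π (PowerSeries.X : R) = 0 := PowerSeries.constantCoeff_X
    rw [Finset.prod_insert h1, Finset.prod_insert h2, Finset.prod_singleton]
    simp [h3]
    ring
  · let E := AlgebraicClosure (FractionRing R)
    have hinj : Function.Injective (algebraMap R E) := by
      rw [IsScalarTower.algebraMap_eq R (FractionRing R) E]
      exact (FaithfulSMul.algebraMap_injective (FractionRing R) E).comp
        (IsFractionRing.injective R (FractionRing R))
    have h1 : IsReduced (MvPolynomial (Fin N) E ⧸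
        (gridIdeal N T).map (MvPolynomial.map (algebraMap R E))) := by
      rw [map_gridIdeal _ hinj]
      exact isReduced_quot_grid _ _ (hT.image _)
    exact isReduced_of_injective (bcEquiv (E := E) (gridIdeal N T))
      (bcEquiv (E := E) (gridIdeal N T)).injective

theorem no_small_smoothable {k : Type u} [Field k] [Infinite k] {n D : ℕ}
    (h : 4 * D < n * (n + 1)) :
    ∃ I : Ideal (MvPolynomial (Fin n) k),
      Module.Finite k (MvPolynomial (Fin n) k ⧸ I) ∧ deg I ≤ 2 * n + 1 ∧
      (∀ i, X i ^ 3 ∈ I) ∧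
      ∀ I' ≤ I, IsSmoothable I' → D < deg I' := by
  obtain ⟨P, hP0, hP⟩ := exists_poly k h
  obtain ⟨q, hq⟩ : ∃ q : Idx n → k, eval q P ≠ 0 := by
    by_contra hcon
    push Not at hcon
    exact hP0 (MvPolynomial.funext (fun x => by rw [hcon x, map_zero]))
  refine ⟨apolar q, (finite_apolar q).1, (finite_apolar q).2, X_pow_mem_apolar q, ?_⟩
  intro I' hI' hs
  by_contra hle
  push Not at hle
  apply hq
  let φ : Fin n → ((MvPolynomial (Fin n) k ⧸ I') →ₗ[k] k) := fun l =>
    Submodule.liftQ (I'.restrictScalars k) (fn q l) (by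
      intro f hf
      rw [LinearMap.mem_ker]
      have h1 := hI' hf
      have h2 := (mem_apolar q f).mp h1 l 1
      rwa [one_mul] at h2) ∘ₗ
      (Submodule.Quotient.restrictScalarsEquiv k I').symm.toLinearMap
  have hφ : ∀ l (f : MvPolynomial (Fin n) k), φ l (Ideal.Quotient.mk I' f) = fn q l f := by
    intro l f
    rfl
  have key := smoothable_vanish (n := n) (D := D) I' hs hle
    (fun i => Ideal.Quotient.mk I' (X i)) φ P hP
  have : algTens (fun i => Ideal.Quotient.mk I' (X i)) φ = q := by
    funext t
    rw [algTens, ← map_mul, hφ, fn_X_mul_X]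
  rw [this] at key
  rw [← MvPolynomial.aeval_eq_eval]
  exact key

/-- **Main theorem.** Over an algebraically closed field `k`, for every constant `C` there are
`n` and a finite subscheme `Γ ⊆ A^n` whose smoothability defect exceeds `C * deg Γ`. -/
theorem result (k : Type u) [Field k] [IsAlgClosed k] (C : ℕ) :
    ∃ (n : ℕ) (I : Ideal (MvPolynomial (Fin n) k)),
      Module.Finite k (MvPolynomial (Fin n) k ⧸ I) ∧
      C * deg I < smoothabilityDefect I := by
  have : Infinite k := IsAlgClosed.instInfinite
  obtain ⟨I, hfin, hdeg, hcube, hI⟩ :=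
    no_small_smoothable (k := k) (n := 8 * C + 12) (D := (C + 1) * (2 * (8 * C + 12) + 1))
      (by nlinarith)
  refine ⟨8 * C + 12, I, hfin, ?_⟩
  have hne : {e : ℕ | ∃ I' : Ideal (MvPolynomial (Fin (8 * C + 12)) k),
    I' ≤ I ∧ IsSmoothable I' ∧ deg I' = deg I + e}.Nonempty := by
    let I₀ : Ideal (MvPolynomial (Fin (8 * C + 12)) k) :=
      Ideal.span (Set.range fun i => X i ^ 3)
    have hs : IsSmoothable I₀ := smoothable_cubes k _
    have hle : I₀ ≤ I := by
      rw [Ideal.span_le]
      rintro _ ⟨i, rfl⟩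
      exact hcube i
    have h1 := hI I₀ hle hs
    refine ⟨deg I₀ - deg I, I₀, hle, hs, ?_⟩
    have : deg I ≤ deg I₀ := by
      refine hdeg.trans (le_trans ?_ h1.le)
      nlinarith
    omega
  obtain ⟨I', hle, hs, hd⟩ := Nat.sInf_mem hne
  have h1 := hI I' hle hs
  rw [hd] at h1
  change _ < deg I + smoothabilityDefect I at h1
  have h2 : C * deg I + deg I ≤ (C + 1) * (2 * (8 * C + 12) + 1) := by
    calc C * deg I + deg I = (C + 1) * deg I := by ring
      _ ≤ _ := Nat.mul_le_mul_left _ hdeg
  omega

end Pool.Agent.H16.UnboundedDefectVariant
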